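import Pool.Agent.N422.LR.Stm

/-! Project LR (helper422): reduction to squarefree moduli (LR/SQF), by helper703. -/

set_option autoImplicit false

open Finset

namespace Pool.Agent.N422.LR

open Pool.Agent.N422.NW Pool.Agent.N422.SL Pool.Agent.N422.WS Pool.Agent.N422.LG

lemma SQF_sum_mul (P : ℕ) (F : ℕ → ℝ) (K : ℕ) :
    ∑ m ∈ range (P * K), F m = ∑ k ∈ range K, ∑ n ∈ range P, F (n + k * P) := by
  induction K with
  | zero => simp
  | succ K ih =>
    rw [Nat.mul_succ, Finset.sum_range_add, ih, Finset.sum_range_succ]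
    congr 1
    apply Finset.sum_congr rfl
    intro n _
    congr 1
    ring

/-- the classes `n + k P` mod `d` -/
lemma SQF_image (d P n : ℕ) (hd : 0 < d) :
    ((range (d / Nat.gcd d P)).image (fun k => (n + k * P) % d)) =
      (range d).filter (fun b => b % Nat.gcd d P = n % Nat.gcd d P) ∧
    Set.InjOn (fun k => (n + k * P) % d) (range (d / Nat.gcd d P) : Finset ℕ) := by
  set g := Nat.gcd d P with hg
  have hgpos : 0 < g := Nat.gcd_pos_of_pos_left _ hd
  have hgd : g ∣ d := Nat.gcd_dvd_left d P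
  have hgP : g ∣ P := Nat.gcd_dvd_right d P
  have hinj : Set.InjOn (fun k => (n + k * P) % d) (range (d / g) : Finset ℕ) := by
    intro k hk k' hk' h
    have hk1 : k < d / g := by simpa using hk
    have hk2 : k' < d / g := by simpa using hk'
    have h1 : (n + k * P) ≡ (n + k' * P) [MOD d] := h
    have h2 : k * P ≡ k' * P [MOD d] := Nat.ModEq.add_left_cancel' n h1
    have h3 : k ≡ k' [MOD d / Nat.gcd d P] := Nat.ModEq.cancel_right_div_gcd hd h2
    exact Nat.ModEq.eq_of_lt_of_lt h3 hk1 hk2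
  refine ⟨?_, hinj⟩
  apply Finset.eq_of_subset_of_card_le
  · intro b hb
    rw [Finset.mem_image] at hb
    obtain ⟨k, _, rfl⟩ := hb
    rw [Finset.mem_filter, Finset.mem_range]
    refine ⟨Nat.mod_lt _ hd, ?_⟩
    rw [Nat.mod_mod_of_dvd _ hgd]
    obtain ⟨e, he⟩ := hgP
    rw [he, show k * (g * e) = g * (k * e) by ring, Nat.add_mul_mod_self_left]
  · rw [Finset.card_image_of_injOn hinj]
    apply Finset.card_le_card_of_injOn (fun b => b / g)
    · intro b hb
      have hb' := hb
      simp only [Finset.coe_filter, Finset.mem_range, Set.mem_ofPred_eq] at hb'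
      simp only [Finset.coe_range, Set.mem_Iio]
      exact Nat.div_lt_div_of_lt_of_dvd hgd hb'.1
    · intro b hb b' hb' h
      simp only [Finset.coe_filter, Finset.mem_range, Set.mem_ofPred_eq] at hb hb'
      have h' : b / g = b' / g := h
      rw [← Nat.div_add_mod b g, ← Nat.div_add_mod b' g, h', hb.2, hb'.2]

lemma SQF_avg (d P K n : ℕ) (f : ℕ → ℝ) (hd : 0 < d) (hK : 0 < K) (hdM : d ∣ P * K) :
    (∑ k ∈ range K, f ((n + k * P) % d)) / (K : ℝ) =
      ((Nat.gcd d P : ℕ) : ℝ) / d * ∑ b ∈ (range d).filter (fun b => b % Nat.gcd d P = n % Nat.gcd d P), f b := by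
  obtain ⟨him, hinj⟩ := SQF_image d P n hd
  rw [← him, Finset.sum_image hinj]
  set g := Nat.gcd d P with hg
  have hgpos : 0 < g := Nat.gcd_pos_of_pos_left _ hd
  obtain ⟨d', hd'⟩ : g ∣ d := Nat.gcd_dvd_left d P
  obtain ⟨P', hP'⟩ : g ∣ P := Nat.gcd_dvd_right d P
  have hdg : d / g = d' := by rw [hd']; exact Nat.mul_div_cancel_left d' hgpos
  have hPg : P / g = P' := by rw [hP']; exact Nat.mul_div_cancel_left P' hgpos
  have hcop : Nat.Coprime d' P' := by
    have := Nat.coprime_div_gcd_div_gcd (m := d) (n := P) hgpos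
    rwa [← hg, hdg, hPg] at this
  have hd'pos : 0 < d' := by
    rcases Nat.eq_zero_or_pos d' with h | h
    · rw [h] at hd'; omega
    · exact h
  have hd'K : d' ∣ K := by
    have h1 : g * d' ∣ g * (P' * K) := by
      rw [← hd', ← mul_assoc, ← hP']; exact hdM
    have h2 : d' ∣ P' * K := Nat.dvd_of_mul_dvd_mul_left hgpos h1
    exact hcop.dvd_of_dvd_mul_left h2
  obtain ⟨K', hK'⟩ := hd'K
  have hK'pos : 0 < K' := by
    rcases Nat.eq_zero_or_pos K' with h | h
    · rw [h] at hK'; omega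
    · exact h
  rw [hdg, hK', SQF_sum_mul d' (fun k => f ((n + k * P) % d)) K']
  have hper : ∀ i j : ℕ, (n + (i + j * d') * P) % d = (n + i * P) % d := by
    intro i j
    have : n + (i + j * d') * P = (n + i * P) + d * (j * P') := by
      rw [hP', hd']; ring
    rw [this, Nat.add_mul_mod_self_left]
  simp only [hper]
  rw [Finset.sum_const, Finset.card_range, nsmul_eq_mul]
  have hgR : (g : ℝ) ≠ 0 := by exact_mod_cast hgpos.ne'
  have hd'R : (d' : ℝ) ≠ 0 := by exact_mod_cast hd'pos.ne'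
  have hK'R : (K' : ℝ) ≠ 0 := by exact_mod_cast hK'pos.ne'
  have hdR : (d : ℝ) = g * d' := by exact_mod_cast hd'
  rw [hdR]
  push_cast
  field_simp

lemma SQF_PP_pos (Q : ℕ) : 0 < PP Q := by
  unfold PP
  apply Finset.prod_pos
  intro p hp
  exact (Finset.mem_filter.1 hp).2.pos

lemma SQF_PP_dvd (Q : ℕ) : PP Q ∣ Q.factorial := by
  unfold PP
  apply Finset.prod_primes_dvd
  · intro p hp
    exact (Finset.mem_filter.1 hp).2.prime
  · intro p hp
    have h := Finset.mem_filter.1 hp
    have h1 := Finset.mem_Icc.1 h.1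
    exact Nat.dvd_factorial h.2.pos h1.2

lemma SQF_PP_sq (Q : ℕ) : Squarefree (PP Q) := by
  unfold PP
  refine Finset.squarefree_prod_of_pairwise_isCoprime (fun _ hp _ hq hpq ↦ ?_) (fun p hp ↦ ?_)
  · have hp1 := (Finset.mem_filter.1 (Finset.mem_coe.1 hp)).2
    have hq1 := (Finset.mem_filter.1 (Finset.mem_coe.1 hq)).2
    show IsRelPrime _ _
    rw [← Nat.coprime_iff_isRelPrime]
    exact (Nat.coprime_primes hp1 hq1).2 hpq
  · exact (Finset.mem_filter.1 hp).2.prime.squarefree

/-- reduction to squarefree moduli -/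
theorem t_SQF : S_SQF := by
  intro Q c hQ
  classical
  set P := PP Q with hP
  have hPpos : 0 < P := SQF_PP_pos Q
  obtain ⟨K, hK⟩ : P ∣ Q.factorial := SQF_PP_dvd Q
  have hKpos : 0 < K := by
    rcases Nat.eq_zero_or_pos K with h | h
    · rw [h] at hK
      have := Nat.factorial_pos Q
      omega
    · exact h
  let c' : ℕ → ℕ → ℝ := fun g a => ∑ d ∈ (Icc 1 Q).filter (fun d => Nat.gcd d P = g),
    ((Nat.gcd d P : ℕ) : ℝ) / d * ∑ b ∈ (range d).filter (fun b => b % Nat.gcd d P = a % Nat.gcd d P), c d b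
  have key : ∀ n : ℕ, ws Q c' n = (∑ k ∈ range K, wt Q c (n + k * P)) / (K : ℝ) := by
    intro n
    have h1 : (∑ k ∈ range K, wt Q c (n + k * P)) / (K : ℝ) =
        ∑ d ∈ Icc 1 Q, ((Nat.gcd d P : ℕ) : ℝ) / d *
          ∑ b ∈ (range d).filter (fun b => b % Nat.gcd d P = n % Nat.gcd d P), c d b := by
      unfold wt
      rw [Finset.sum_comm, Finset.sum_div]
      apply Finset.sum_congr rfl
      intro d hd
      have hd1 := Finset.mem_Icc.1 hd
      apply SQF_avg d P K n (c d) (by omega) hKpos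
      rw [← hK]
      exact Nat.dvd_factorial (by omega) hd1.2
    rw [h1]
    have hmaps : ∀ d ∈ Icc 1 Q, Nat.gcd d P ∈ (Icc 1 Q).filter Squarefree := by
      intro d hd
      have hd1 := Finset.mem_Icc.1 hd
      rw [Finset.mem_filter, Finset.mem_Icc]
      refine ⟨⟨Nat.gcd_pos_of_pos_left _ (by omega), le_trans (Nat.gcd_le_left _ (by omega)) hd1.2⟩, ?_⟩
      exact (SQF_PP_sq Q).squarefree_of_dvd (Nat.gcd_dvd_right d P)
    rw [← Finset.sum_fiberwise_of_maps_to hmaps]
    unfold ws
    apply Finset.sum_congr rfl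
    intro g hg
    apply Finset.sum_congr rfl
    intro d hd
    have hdg : Nat.gcd d P = g := (Finset.mem_filter.1 hd).2
    rw [hdg]
    simp only [Nat.mod_mod]
  refine ⟨c', ?_, ?_⟩
  · unfold mP mQ
    rw [← hP, hK, SQF_sum_mul, Finset.sum_comm]
    have hKR : (K : ℝ) ≠ 0 := by exact_mod_cast hKpos.ne'
    have hPR : (P : ℝ) ≠ 0 := by exact_mod_cast hPpos.ne'
    have : ∑ n ∈ range P, ws Q c' n = (∑ n ∈ range P, ∑ k ∈ range K, wt Q c (n + k * P)) / (K : ℝ) := by
      rw [Finset.sum_div]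
      apply Finset.sum_congr rfl
      intro n _
      exact key n
    rw [this]
    push_cast
    field_simp
  · intro T hT hneg n hn
    rw [key n]
    apply div_nonpos_of_nonpos_of_nonneg _ (by positivity)
    apply Finset.sum_nonpos
    intro k _
    apply hneg
    rw [hT]
    have : (n + k * P) % PP Q = n % PP Q := by
      rw [← hP, mul_comm k P, Nat.add_mul_mod_self_left]
    rw [this]
    exact (hT n).1 hn

end Pool.Agent.N422.LR
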