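import Pool.Agent.N422.LR.Stm

/-! Project LR (helper422), part HX: one window for a real function, by helper394. -/

set_option autoImplicit false

open Finset

namespace Pool.Agent.N422.LR

open Pool.Agent.N422.NW Pool.Agent.N422.SL Pool.Agent.N422.WS Pool.Agent.N422.LG

theorem HX_sum {A : Type} [AddCommMonoid A] (P' : Finset ℕ) (φ : ℕ → A) :
    ∑ i : Fin P'.card, φ (P'.equivFin.symm i) = ∑ p ∈ P', φ p := by
  rw [Equiv.sum_comp P'.equivFin.symm (fun p : P' => φ p)]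
  exact Finset.sum_coe_sort P' φ

theorem HX_prod {A : Type} [CommMonoid A] (P' : Finset ℕ) (φ : ℕ → A) :
    ∏ i : Fin P'.card, φ (P'.equivFin.symm i) = ∏ p ∈ P', φ p := by
  rw [Equiv.prod_comp P'.equivFin.symm (fun p : P' => φ p)]
  exact Finset.prod_coe_sort P' φ

/-- the residues at the places -/
def HX_e {N : ℕ} (q : Fin N → ℕ) (hq : ∀ i, 0 < q i) (n : ℕ) : Xs q := fun i => ⟨n % q i, Nat.mod_lt _ (hq i)⟩

theorem HX_bij {N : ℕ} (q : Fin N → ℕ) (hq : ∀ i, (q i).Prime) (hinj : Function.Injective q) (R r : ℕ)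
    (hR : ∀ i, ¬ q i ∣ R) :
    Function.Bijective (fun t : Fin (∏ i, q i) => HX_e q (fun i => (hq i).pos) (r + R * t)) := by
  rw [Fintype.bijective_iff_injective_and_card]
  refine ⟨?_, by simp⟩
  intro t t' h
  have h1 : ∀ i, ((q i : ℕ) : ℤ) ∣ ((t' : ℕ) : ℤ) - ((t : ℕ) : ℤ) := by
    intro i
    have h2 : (r + R * (t : ℕ)) % q i = (r + R * (t' : ℕ)) % q i := congrArg Fin.val (congrFun h i)
    have h3 : r + R * (t : ℕ) ≡ r + R * (t' : ℕ) [MOD q i] := h2
    have h4 : R * (t : ℕ) ≡ R * (t' : ℕ) [MOD q i] := Nat.ModEq.add_left_cancel' r h3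
    have h5 : (t : ℕ) ≡ (t' : ℕ) [MOD q i] :=
      Nat.ModEq.cancel_left_of_coprime ((hq i).coprime_iff_not_dvd.2 (hR i)) h4
    exact Nat.modEq_iff_dvd.1 h5
  have h2 : (∏ i, ((q i : ℕ) : ℤ)) ∣ ((t' : ℕ) : ℤ) - ((t : ℕ) : ℤ) := by
    refine Fintype.prod_dvd_of_coprime ?_ h1
    intro i j hij
    exact Nat.isCoprime_iff_coprime.2 ((Nat.coprime_primes (hq i) (hq j)).2 fun h => hij (hinj h))
  rw [← Nat.cast_prod] at h2
  have h3 : ((t' : ℕ) : ℤ) - ((t : ℕ) : ℤ) = 0 := by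
    refine Int.eq_zero_of_abs_lt_dvd h2 ?_
    have e1 := t.2
    have e2 := t'.2
    rw [abs_lt]
    constructor <;> omega
  exact Fin.ext (by omega)

theorem HX_dep1 (Q R r d t t' : ℕ) (P : Finset ℕ) (hQR : ∀ p : ℕ, p.Prime → p ≤ Q → p ∈ P ∨ p ∣ R)
    (hd : Squarefree d) (hdQ : d ≤ Q) (hle : t ≤ t')
    (h : ∀ p ∈ P, p ∣ d → (r + R * t) % p = (r + R * t') % p) : (r + R * t) % d = (r + R * t') % d := by
  have hle2 : r + R * t ≤ r + R * t' := Nat.add_le_add_left (Nat.mul_le_mul_left R hle) r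
  have hd0 : 0 < d := Nat.pos_of_ne_zero hd.ne_zero
  refine (Nat.modEq_iff_dvd' hle2).2 ?_
  rw [← Nat.prod_primeFactors_of_squarefree hd]
  refine Finset.prod_primes_dvd _ (fun p hp => (Nat.prime_of_mem_primeFactors hp).prime) ?_
  intro p hp
  have hpp := Nat.prime_of_mem_primeFactors hp
  have hpd := Nat.dvd_of_mem_primeFactors hp
  rcases hQR p hpp ((Nat.le_of_dvd hd0 hpd).trans hdQ) with h1 | h1
  · exact (Nat.modEq_iff_dvd' hle2).1 (h p h1 hpd)
  · have e : r + R * t' - (r + R * t) = R * (t' - t) := by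
      rw [Nat.add_sub_add_left, Nat.mul_sub]
    rw [e]
    exact Dvd.dvd.mul_right h1 _

theorem HX_dep (Q R r d t t' : ℕ) (P : Finset ℕ) (hQR : ∀ p : ℕ, p.Prime → p ≤ Q → p ∈ P ∨ p ∣ R)
    (hd : Squarefree d) (hdQ : d ≤ Q)
    (h : ∀ p ∈ P, p ∣ d → (r + R * t) % p = (r + R * t') % p) : (r + R * t) % d = (r + R * t') % d := by
  rcases le_total t t' with hle | hle
  · exact HX_dep1 Q R r d t t' P hQR hd hdQ hle h
  · exact (HX_dep1 Q R r d t' t P hQR hd hdQ hle fun p hp hpd => (h p hp hpd).symm).symm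

/-- the sites not hit -/
def HX_left (P T : Finset ℕ) (x : ℕ) : Finset ℕ := T.filter (fun h => ∀ p ∈ P, ¬ p ∣ x + h)

theorem HX_one_class {q h : ℕ} (hq : 0 < q) : (univ.filter (fun u : Fin q => q ∣ (u : ℕ) + h)).card = 1 := by
  rw [Finset.card_eq_one]
  have hu : ∃ u : Fin q, q ∣ (u : ℕ) + h := by
    refine ⟨⟨(q - h % q) % q, Nat.mod_lt _ hq⟩, ?_⟩
    have h1 := Nat.mod_lt h hq
    apply Nat.dvd_of_mod_eq_zero
    show ((q - h % q) % q + h) % q = 0
    have h2 : (q - h % q) + h = q * (h / q) + q := by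
      have h3 := Nat.div_add_mod h q
      omega
    rw [Nat.mod_add_mod, h2]
    simp
  obtain ⟨u, hu⟩ := hu
  refine ⟨u, ?_⟩
  ext v
  rw [mem_filter, mem_singleton]
  constructor
  · rintro ⟨-, hv⟩
    have h1 : (v : ℕ) + h ≡ (u : ℕ) + h [MOD q] :=
      (Nat.modEq_zero_iff_dvd.2 hv).trans (Nat.modEq_zero_iff_dvd.2 hu).symm
    have h2 : (v : ℕ) ≡ (u : ℕ) [MOD q] := Nat.ModEq.add_right_cancel' h h1
    exact Fin.ext (Nat.ModEq.eq_of_lt_of_lt h2 v.2 u.2)
  · rintro rfl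
    exact ⟨mem_univ _, hu⟩

open Classical in
/-- one residue class modulo `R`, one block of sites -/
theorem HX_one (hWX : S_WX) (Q R r m n b z : ℕ) (l : ℝ) (P T : Finset ℕ) (ν : ℕ → ℕ) (c : ℕ → ℕ → ℝ)
    (hP : ∀ p ∈ P, p.Prime ∧ z < p ∧ ¬ p ∣ R) (hQR : ∀ p : ℕ, p.Prime → p ≤ Q → p ∈ P ∨ p ∣ R)
    (hz : 2 ≤ z) (hb : 2 * b ≤ z) (hT : T.card ≤ b) (hT2 : ∀ p ∈ P, ∀ h ∈ T, ∀ h' ∈ T, h' < h + p)
    (hν : ∀ p ∈ P, m ≤ ν p) (hm : 0 < m)
    (hlev : ∀ d, 1 ≤ d → d ≤ Q → ∑ p ∈ P.filter (fun p => p ∣ d), ν p ≤ n) (hl : 0 < l) (hl2 : l ≤ 1 / 16) :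
    ∑ t ∈ range (∏ p ∈ P, p), max (ws Q c (r + R * t)) 0 *
        ((T.card : ℝ) - ((HX_left P T (r + R * t)).card : ℝ)) ≤
      (1 + 11 * l + 2 * ((b : ℝ) / z)) * (∑ p ∈ P, 1 / (p : ℝ)) *
        (T.card * ∑ t ∈ range (∏ p ∈ P, p), max (ws Q c (r + R * t)) 0) +
      (((n : ℝ) / m) * (∑ t ∈ range (∏ p ∈ P, p), max (ws Q c (r + R * t)) 0) +
        ∑ t ∈ range (∏ p ∈ P, p), max (-ws Q c (r + R * t)) 0) / l := by
  set q : Fin P.card → ℕ := fun i => P.equivFin.symm i with hq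
  have hqP : ∀ i, q i ∈ P := fun i => (P.equivFin.symm i).2
  have hinj : Function.Injective q := Subtype.val_injective.comp P.equivFin.symm.injective
  set hs : Fin T.card → ℕ := fun a => T.equivFin.symm a with hhs
  have hsT : ∀ a, hs a ∈ T := fun a => (T.equivFin.symm a).2
  have hsinj : Function.Injective hs := Subtype.val_injective.comp T.equivFin.symm.injective
  have hqp : ∀ i, (q i).Prime := fun i => (hP _ (hqP i)).1
  have hbij := HX_bij q hqp hinj R r (fun i => (hP _ (hqP i)).2.2)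
  set E : Fin (∏ i, q i) ≃ Xs q := Equiv.ofBijective _ hbij with hE
  have hEi : ∀ t i, ((E t i : Fin (q i)) : ℕ) = (r + R * (t : ℕ)) % q i := fun t i => rfl
  have hEs : ∀ x i, ((x i : Fin (q i)) : ℕ) = (r + R * ((E.symm x : Fin (∏ i, q i)) : ℕ)) % q i := by
    intro x i
    rw [← hEi, E.apply_symm_apply]
  set f : Xs q → ℝ := fun x => ws Q c (r + R * ((E.symm x : Fin (∏ i, q i)) : ℕ)) with hf
  set σ : (i : Fin P.card) → Fin (q i) → Option (Fin T.card) := fun i u =>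
    if h : ∃ a, q i ∣ (u : ℕ) + hs a then some h.choose else none with hσ
  have hσ1 : ∀ i u a, σ i u = some a ↔ q i ∣ (u : ℕ) + hs a := by
    intro i u a
    have huniq : ∀ a a', q i ∣ (u : ℕ) + hs a → q i ∣ (u : ℕ) + hs a' → a = a' := by
      intro a a' ha ha'
      apply hsinj
      rcases le_total (hs a) (hs a') with hle | hle
      · have h3 := Nat.dvd_sub ha' ha
        have h4 : (u : ℕ) + hs a' - ((u : ℕ) + hs a) = hs a' - hs a := by omega
        rw [h4] at h3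
        have h5 := hT2 _ (hqP i) _ (hsT a) _ (hsT a')
        have h6 := Nat.eq_zero_of_dvd_of_lt h3 (by omega)
        omega
      · have h3 := Nat.dvd_sub ha ha'
        have h4 : (u : ℕ) + hs a - ((u : ℕ) + hs a') = hs a - hs a' := by omega
        rw [h4] at h3
        have h5 := hT2 _ (hqP i) _ (hsT a') _ (hsT a)
        have h6 := Nat.eq_zero_of_dvd_of_lt h3 (by omega)
        omega
    by_cases hex : ∃ a, q i ∣ (u : ℕ) + hs a
    · have e : σ i u = some hex.choose := by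
        simp only [hσ]
        rw [dif_pos hex]
      rw [e, Option.some.injEq]
      constructor
      · intro h
        rw [← h]
        exact hex.choose_spec
      · intro h
        exact huniq _ _ hex.choose_spec h
    · have e : σ i u = none := by
        simp only [hσ]
        rw [dif_neg hex]
      rw [e]
      constructor
      · intro h
        exact absurd h (by simp)
      · intro h
        exact absurd ⟨a, h⟩ hex
  have hOne : One σ := by
    intro i a
    have e : (univ.filter (fun u : Fin (q i) => σ i u = some a)) =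
        univ.filter (fun u : Fin (q i) => q i ∣ (u : ℕ) + hs a) := by
      ext u
      rw [mem_filter, mem_filter, hσ1]
    rw [e]
    exact HX_one_class (hqp i).pos
  have hzR : (0 : ℝ) < z := by
    have : 0 < z := by omega
    exact_mod_cast this
  have hLev : LevX (fun i => ν (q i)) n f := by
    set D : Finset ℕ := (Icc 1 Q).filter Squarefree with hD
    refine ⟨D.card, fun j => univ.filter (fun i => q i ∣ (D.equivFin.symm j : ℕ)),
      fun j x => c (D.equivFin.symm j : ℕ) ((r + R * ((E.symm x : Fin (∏ i, q i)) : ℕ)) %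
        (D.equivFin.symm j : ℕ)), ?_, ?_, ?_⟩
    · intro j
      have hj := (mem_filter.1 (D.equivFin.symm j).2).1
      rw [mem_Icc] at hj
      refine le_trans ?_ (hlev _ hj.1 hj.2)
      rw [Finset.sum_filter, Finset.sum_filter]
      exact le_of_eq (HX_sum P (fun p => if p ∣ (D.equivFin.symm j : ℕ) then ν p else 0))
    · intro j x x' hxx
      have hj := mem_filter.1 (D.equivFin.symm j).2
      have hj1 := mem_Icc.1 hj.1
      show c (D.equivFin.symm j : ℕ) ((r + R * ((E.symm x : Fin (∏ i, q i)) : ℕ)) % (D.equivFin.symm j : ℕ)) =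
        c (D.equivFin.symm j : ℕ) ((r + R * ((E.symm x' : Fin (∏ i, q i)) : ℕ)) % (D.equivFin.symm j : ℕ))
      congr 1
      refine HX_dep Q R r _ _ _ P hQR hj.2 hj1.2 ?_
      intro p hp hpd
      have e1 : q (P.equivFin ⟨p, hp⟩) = p := by simp [hq]
      have e2 := hEs x (P.equivFin ⟨p, hp⟩)
      have e3 := hEs x' (P.equivFin ⟨p, hp⟩)
      have e4 := hxx (P.equivFin ⟨p, hp⟩) (mem_filter.2 ⟨mem_univ _, by rw [e1]; exact hpd⟩)
      rw [e4] at e2
      rw [e2] at e3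
      rw [e1] at e3
      exact e3
    · intro x
      show ws Q c (r + R * ((E.symm x : Fin (∏ i, q i)) : ℕ)) = _
      unfold ws
      exact (HX_sum D (fun d => c d ((r + R * ((E.symm x : Fin (∏ i, q i)) : ℕ)) % d))).symm
  have h4 := hWX P.card T.card m n q σ (fun i => ν (q i)) f l ((b : ℝ) / z) hm
    (fun i => ⟨by have := (hP _ (hqP i)).2.1; omega, (hqp i).pos⟩)
    (fun i => by
      have h5 := (hP _ (hqP i)).2.1
      have h6 : (z : ℝ) ≤ q i := by exact_mod_cast h5.le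
      have h7 : (T.card : ℝ) ≤ b := by exact_mod_cast hT
      have h8 : (0 : ℝ) < q i := lt_of_lt_of_le hzR h6
      exact div_le_div₀ (Nat.cast_nonneg b) h7 hzR h6)
    (by positivity) hOne (fun i => hν _ (hqP i)) hLev hl hl2
  have hfE : ∀ t, f (E t) = ws Q c (r + R * (t : ℕ)) := by
    intro t
    simp only [hf]
    rw [E.symm_apply_apply]
  have hal : ∀ t, (al σ (E t) P.card).card = (HX_left P T (r + R * (t : ℕ))).card := by
    intro t
    refine Finset.card_bij (fun a _ => hs a) ?_ ?_ ?_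
    · intro a ha
      rw [al, mem_filter] at ha
      refine mem_filter.2 ⟨hsT a, ?_⟩
      intro p hp hdv
      have e1 : q (P.equivFin ⟨p, hp⟩) = p := by simp [hq]
      refine ha.2 (P.equivFin ⟨p, hp⟩) (P.equivFin ⟨p, hp⟩).2 ((hσ1 _ _ _).2 ?_)
      rw [hEi, e1]
      exact ((Nat.mod_modEq (r + R * (t : ℕ)) p).add_right (hs a)).dvd_iff dvd_rfl |>.2 hdv
    · intro a _ a' _ h
      exact hsinj h
    · intro h hh
      rw [HX_left, mem_filter] at hh
      refine ⟨T.equivFin ⟨h, hh.1⟩, ?_, by simp [hhs]⟩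
      rw [al, mem_filter]
      refine ⟨mem_univ _, fun i _ hcon => ?_⟩
      rw [hσ1, hEi] at hcon
      have e2 : hs (T.equivFin ⟨h, hh.1⟩) = h := by simp [hhs]
      rw [e2] at hcon
      exact hh.2 (q i) (hqP i)
        (((Nat.mod_modEq (r + R * (t : ℕ)) (q i)).add_right h).dvd_iff dvd_rfl |>.1 hcon)
  have hK : ∏ i, q i = ∏ p ∈ P, p := HX_prod P (fun p => p)
  have hsumE : ∀ G : Xs q → ℝ, ∑ x, G x = ∑ t, G (E t) := fun G => (Equiv.sum_comp E G).symm
  rw [hsumE, hsumE, hsumE] at h4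
  simp only [hfE, hal] at h4
  have hran : ∀ G : ℕ → ℝ, ∑ t : Fin (∏ i, q i), G (t : ℕ) = ∑ t ∈ range (∏ p ∈ P, p), G t := by
    intro G
    rw [Fin.sum_univ_eq_sum_range G (∏ i, q i), hK]
  have e1 : ∑ i, 1 / (q i : ℝ) = ∑ p ∈ P, 1 / (p : ℝ) := HX_sum P (fun p => 1 / (p : ℝ))
  rw [e1, hran (fun t => max (ws Q c (r + R * t)) 0 *
      ((T.card : ℝ) - ((HX_left P T (r + R * t)).card : ℝ))), hran (fun t => max (ws Q c (r + R * t)) 0),
    hran (fun t => max (-ws Q c (r + R * t)) 0)] at h4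
  exact h4

/-- the blocks -/
def HX_blk (s : Finset ℕ) (y j : ℕ) : Finset ℕ := s.filter (fun h => h / y = j)

theorem HX_blk_card (s : Finset ℕ) (y j : ℕ) (hy : 0 < y) : (HX_blk s y j).card ≤ y := by
  have h1 : HX_blk s y j ⊆ Ico (j * y) (j * y + y) := by
    intro h hh
    have h2 := (mem_filter.1 hh).2
    rw [mem_Ico]
    have h3 := Nat.div_add_mod h y
    have h4 := Nat.mod_lt h hy
    rw [h2, mul_comm] at h3
    omega
  exact (card_le_card h1).trans (by simp)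

theorem HX_blk_diff (s : Finset ℕ) (y j p : ℕ) (hy : 0 < y) (hp : y < p) (h h' : ℕ) (hh : h ∈ HX_blk s y j)
    (hh' : h' ∈ HX_blk s y j) : h' < h + p := by
  have h2 := (mem_filter.1 hh).2
  have h2' := (mem_filter.1 hh').2
  have h3 := Nat.div_add_mod h y
  have h4 := Nat.mod_lt h' hy
  have h3' := Nat.div_add_mod h' y
  rw [h2] at h3
  rw [h2'] at h3'
  omega

theorem HX_split (s : Finset ℕ) (U y : ℕ) (hs : s ⊆ Icc 1 U) (φ : ℕ → ℝ) :
    ∑ j ∈ range (U / y + 1), ∑ h ∈ HX_blk s y j, φ h = ∑ h ∈ s, φ h := by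
  unfold HX_blk
  rw [Finset.sum_fiberwise_of_maps_to]
  intro h hh
  rw [mem_range]
  have h1 := mem_Icc.1 (hs hh)
  exact Nat.lt_succ_of_le (Nat.div_le_div_right h1.2)

/-- one residue class modulo `R` -/
theorem HX_cls (hWX : S_WX) (Q R r m n b z U : ℕ) (l : ℝ) (P s : Finset ℕ) (ν : ℕ → ℕ) (c : ℕ → ℕ → ℝ)
    (hP : ∀ p ∈ P, p.Prime ∧ z < p ∧ ¬ p ∣ R) (hQR : ∀ p : ℕ, p.Prime → p ≤ Q → p ∈ P ∨ p ∣ R)
    (hz : 2 ≤ z) (hb0 : 0 < b) (hb : 2 * b ≤ z) (hs : s ⊆ Icc 1 U)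
    (hν : ∀ p ∈ P, m ≤ ν p) (hm : 0 < m)
    (hlev : ∀ d, 1 ≤ d → d ≤ Q → ∑ p ∈ P.filter (fun p => p ∣ d), ν p ≤ n) (hl : 0 < l) (hl2 : l ≤ 1 / 16) :
    ∑ t ∈ range (∏ p ∈ P, p), max (ws Q c (r + R * t)) 0 *
        ((s.card : ℝ) - ((HX_left P s (r + R * t)).card : ℝ)) ≤
      (1 + 11 * l + 2 * ((b : ℝ) / z)) * (∑ p ∈ P, 1 / (p : ℝ)) *
        (s.card * ∑ t ∈ range (∏ p ∈ P, p), max (ws Q c (r + R * t)) 0) +
      ((U / b + 1 : ℕ) : ℝ) * ((((n : ℝ) / m) * (∑ t ∈ range (∏ p ∈ P, p), max (ws Q c (r + R * t)) 0) +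
        ∑ t ∈ range (∏ p ∈ P, p), max (-ws Q c (r + R * t)) 0) / l) := by
  have h3 := Finset.sum_le_sum (fun j (_ : j ∈ range (U / b + 1)) =>
    HX_one hWX Q R r m n b z l P (HX_blk s b j) ν c hP hQR hz hb (HX_blk_card s b j hb0)
      (fun p hp h hh h' hh' => HX_blk_diff s b j p hb0 (by have := (hP p hp).2.1; omega) h h' hh hh')
      hν hm hlev hl hl2)
  rw [sum_comm, sum_add_distrib, ← mul_sum, ← sum_mul, sum_const, card_range, nsmul_eq_mul] at h3
  have e1 : ∑ j ∈ range (U / b + 1), ((HX_blk s b j).card : ℝ) = s.card := by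
    have := HX_split s U b hs (fun _ => 1)
    simpa using this
  have e2 : ∀ x : ℕ, ∑ j ∈ range (U / b + 1), ((HX_left P (HX_blk s b j) x).card : ℝ) =
      ((HX_left P s x).card : ℝ) := by
    intro x
    have h4 := HX_split s U b hs (fun h => if ∀ p ∈ P, ¬ p ∣ x + h then 1 else 0)
    have h5 : ∀ t : Finset ℕ, ((HX_left P t x).card : ℝ) =
        ∑ h ∈ t, (if ∀ p ∈ P, ¬ p ∣ x + h then (1 : ℝ) else 0) := by
      intro t
      rw [← sum_filter, HX_left]
      simp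
    simp only [h5]
    exact h4
  rw [e1] at h3
  refine le_trans (le_of_eq ?_) h3
  refine sum_congr rfl fun t _ => ?_
  rw [← mul_sum, sum_sub_distrib, e1, e2]

theorem HX_range (R K : ℕ) (hR : 0 < R) (G : ℕ → ℝ) :
    ∑ n ∈ range (R * K), G n = ∑ r ∈ range R, ∑ t ∈ range K, G (r + R * t) := by
  rw [← Finset.sum_product']
  symm
  refine Finset.sum_bij' (fun a _ => a.1 + R * a.2) (fun n _ => (n % R, n / R)) ?_ ?_ ?_ ?_ ?_
  · rintro ⟨r, t⟩ h
    rw [mem_product, mem_range, mem_range] at h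
    rw [mem_range]
    have h1 : R * (t + 1) ≤ R * K := Nat.mul_le_mul_left R h.2
    have h2 : R * (t + 1) = R * t + R := by ring
    have h3 := h.1
    simp only at h3 ⊢
    omega
  · intro n h
    rw [mem_range] at h
    rw [mem_product, mem_range, mem_range]
    exact ⟨Nat.mod_lt n hR, Nat.div_lt_of_lt_mul h⟩
  · rintro ⟨r, t⟩ h
    rw [mem_product, mem_range, mem_range] at h
    have h3 : r < R := h.1
    simp only [Prod.mk.injEq]
    constructor
    · rw [Nat.add_mul_mod_self_left, Nat.mod_eq_of_lt h3]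
    · rw [Nat.add_mul_div_left _ _ hR, Nat.div_eq_of_lt h3, zero_add]
  · intro n h
    simp only
    exact Nat.mod_add_div n R
  · rintro ⟨r, t⟩ h
    rfl

theorem t_HX (h : S_WX) : S_HX := by
  intro Q U z z' b l c hz hzz hzQ hb1 hb hl hl2
  have hzR : (1 : ℝ) < z := by exact_mod_cast (by omega : 1 < z)
  have hlogz : 0 < Real.log z := Real.log_pos hzR
  have hQR1 : (z : ℝ) ≤ Q := by exact_mod_cast hzz.trans hzQ
  have hlogQ : Real.log z ≤ Real.log Q := Real.log_le_log (by linarith) hQR1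
  have hlogQp : 0 < Real.log Q := hlogz.trans_le hlogQ
  have hlogQ0 : 0 ≤ Real.log Q := hlogQp.le
  set P : Finset ℕ := PQ z' z with hPdef
  have hPm : ∀ p, p ∈ P ↔ (1 ≤ p ∧ p ≤ z') ∧ p.Prime ∧ z < p := by
    intro p
    rw [hPdef, PQ, mem_filter, mem_Icc]
  set A : Finset ℕ := (Icc 1 Q).filter Nat.Prime with hA
  have hPA : P ⊆ A := by
    intro p hp
    have h1 := (hPm p).1 hp
    rw [hA, mem_filter, mem_Icc]
    exact ⟨⟨h1.1.1, h1.1.2.trans hzQ⟩, h1.2.1⟩
  set R : ℕ := ∏ p ∈ A \ P, p with hR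
  set K : ℕ := ∏ p ∈ P, p with hK
  have hM : PP Q = R * K := (Finset.prod_sdiff hPA).symm
  have hR0 : 0 < R := prod_pos fun p hp => (mem_filter.1 (mem_sdiff.1 hp).1).2.pos
  have hK0 : 0 < K := prod_pos fun p hp => ((hPm p).1 hp).2.1.pos
  have hP : ∀ p ∈ P, p.Prime ∧ z < p ∧ ¬ p ∣ R := by
    intro p hp
    have h1 := (hPm p).1 hp
    refine ⟨h1.2.1, h1.2.2, fun hdv => ?_⟩
    obtain ⟨q', hq', h2⟩ := (Prime.dvd_finsetProd_iff h1.2.1.prime _).1 hdv
    have h3 := mem_sdiff.1 hq'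
    have h4 := (Nat.prime_dvd_prime_iff_eq h1.2.1 (mem_filter.1 h3.1).2).1 h2
    rw [← h4] at h3
    exact h3.2 hp
  have hQR : ∀ p : ℕ, p.Prime → p ≤ Q → p ∈ P ∨ p ∣ R := by
    intro p hpp hpQ
    by_cases hp : p ∈ P
    · exact Or.inl hp
    · refine Or.inr (Finset.dvd_prod_of_mem (fun p => p) (mem_sdiff.2 ⟨?_, hp⟩))
      rw [hA, mem_filter, mem_Icc]
      exact ⟨⟨hpp.one_lt.le, hpQ⟩, hpp⟩
  have hsmall : ∀ p : ℕ, p.Prime → p ≤ z → p ∣ R := by
    intro p hpp hpz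
    rcases hQR p hpp ((hpz.trans hzz).trans hzQ) with h1 | h1
    · have := ((hPm p).1 h1).2.2
      omega
    · exact h1
  -- the levels
  set La : ℝ := Real.log Q / Real.log z with hLa
  have hLa1 : 1 ≤ La := by
    rw [hLa, one_le_div hlogz]
    exact hlogQ
  obtain ⟨n, hn⟩ : ∃ n : ℕ, 2 * La ≤ n := exists_nat_ge _
  have hnpos : (0 : ℝ) < n := by linarith
  set m : ℕ := ⌊(n : ℝ) / La⌋₊ with hm
  have hnL : 2 ≤ (n : ℝ) / La := by
    rw [le_div_iff₀ (by linarith)]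
    exact hn
  have hm1 : (n : ℝ) / La - 1 < m := by
    have := Nat.lt_floor_add_one ((n : ℝ) / La)
    rw [← hm] at this
    linarith
  have hm2 : (n : ℝ) / La / 2 ≤ m := by linarith
  have hmpos : 0 < m := by
    have : (0 : ℝ) < m := by linarith
    exact_mod_cast this
  have hmR : (0 : ℝ) < m := by exact_mod_cast hmpos
  have hnm : (n : ℝ) / m ≤ 2 * La := by
    rw [div_le_iff₀ hmR]
    have h3 : (n : ℝ) = 2 * La * ((n : ℝ) / La / 2) := by
      field_simp
    calc (n : ℝ) = 2 * La * ((n : ℝ) / La / 2) := h3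
      _ ≤ 2 * La * m := mul_le_mul_of_nonneg_left hm2 (by linarith)
  set ν : ℕ → ℕ := fun p => ⌊(n : ℝ) * Real.log p / Real.log Q⌋₊ with hν
  have hνm : ∀ p ∈ P, m ≤ ν p := by
    intro p hp
    refine Nat.floor_le_floor ?_
    rw [hLa, div_div_eq_mul_div]
    refine div_le_div_of_nonneg_right ?_ hlogQ0
    refine mul_le_mul_of_nonneg_left ?_ hnpos.le
    refine Real.log_le_log (by linarith) ?_
    exact_mod_cast (hP p hp).2.1.le
  have hlev : ∀ d, 1 ≤ d → d ≤ Q → ∑ p ∈ P.filter (fun p => p ∣ d), ν p ≤ n := by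
    intro d hd1 hd2
    have h3 : ∏ p ∈ P.filter (fun p => p ∣ d), p ∣ d := by
      refine Finset.prod_primes_dvd d ?_ ?_
      · intro p hp
        exact (hP p (mem_filter.mp hp).1).1.prime
      · intro p hp
        exact (mem_filter.mp hp).2
    have h4 : ∏ p ∈ P.filter (fun p => p ∣ d), p ≤ Q := (Nat.le_of_dvd hd1 h3).trans hd2
    have h5 : ∑ p ∈ P.filter (fun p => p ∣ d), Real.log p ≤ Real.log Q := by
      rw [← Real.log_prod (fun p hp => by
        have := (hP p (mem_filter.mp hp).1).1.pos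
        positivity)]
      have h4' : ((∏ p ∈ P.filter (fun p => p ∣ d), p : ℕ) : ℝ) ≤ Q := Nat.cast_le.mpr h4
      rw [Nat.cast_prod] at h4'
      refine Real.log_le_log ?_ h4'
      refine prod_pos fun p hp => ?_
      have := (hP p (mem_filter.mp hp).1).1.pos
      positivity
    have h6 : ((∑ p ∈ P.filter (fun p => p ∣ d), ν p : ℕ) : ℝ) ≤ n := by
      push_cast
      calc ∑ p ∈ P.filter (fun p => p ∣ d), ((ν p : ℕ) : ℝ)
          ≤ ∑ p ∈ P.filter (fun p => p ∣ d), (n : ℝ) * Real.log p / Real.log Q := by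
            refine sum_le_sum fun p _ => ?_
            refine Nat.floor_le ?_
            have := Real.log_natCast_nonneg p
            positivity
        _ = n * (∑ p ∈ P.filter (fun p => p ∣ d), Real.log p) / Real.log Q := by
            rw [← sum_div, ← mul_sum]
        _ ≤ n * Real.log Q / Real.log Q := by
            refine div_le_div_of_nonneg_right ?_ hlogQ0
            exact mul_le_mul_of_nonneg_left h5 hnpos.le
        _ = n := by field_simp
    exact_mod_cast h6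
  -- the sites
  have hS1 : ∀ r t, Sv U z (r + R * t) = Sv U z r := by
    intro r t
    unfold Sv
    refine filter_congr fun a _ => ?_
    refine forall₂_congr fun p hp => ?_
    have h1 := mem_filter.1 hp
    have h2 := mem_Icc.1 h1.1
    have h3 : p ∣ R * t := (hsmall p h1.2 h2.2).mul_right t
    have e : r + R * t + a = R * t + (r + a) := by ring
    rw [e, Nat.dvd_add_right h3]
  have hS2 : ∀ r t, Sv U z' (r + R * t) = HX_left P (Sv U z r) (r + R * t) := by
    intro r t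
    rw [← hS1 r t]
    unfold HX_left Sv
    rw [filter_filter]
    refine filter_congr fun a _ => ?_
    constructor
    · intro h1
      refine ⟨fun p hp => ?_, fun p hp => ?_⟩
      · have h2 := mem_filter.1 hp
        have h3 := mem_Icc.1 h2.1
        exact h1 p (mem_filter.2 ⟨mem_Icc.2 ⟨h3.1, h3.2.trans hzz⟩, h2.2⟩)
      · have h2 := (hPm p).1 hp
        exact h1 p (mem_filter.2 ⟨mem_Icc.2 h2.1, h2.2.1⟩)
    · rintro ⟨h1, h2⟩ p hp
      have h3 := mem_filter.1 hp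
      have h4 := mem_Icc.1 h3.1
      rcases le_or_gt p z with h5 | h5
      · exact h1 p (mem_filter.2 ⟨mem_Icc.2 ⟨h4.1, h5⟩, h3.2⟩)
      · exact h2 p ((hPm p).2 ⟨h4, h3.2, h5⟩)
  have hMR : (0 : ℝ) < PP Q := by
    rw [hM]
    exact_mod_cast Nat.mul_pos hR0 hK0
  have hmP : ∀ G : ℕ → ℝ, mP Q G * (PP Q : ℝ) = ∑ r ∈ range R, ∑ t ∈ range K, G (r + R * t) := by
    intro G
    unfold mP
    rw [div_mul_cancel₀ _ hMR.ne', hM, HX_range R K hR0]
  have h3 := sum_le_sum fun r (_ : r ∈ range R) =>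
    HX_cls h Q R r m n b z U l P (Sv U z r) ν c hP hQR hz (by omega) hb (filter_subset _ _) hνm hmpos hlev hl hl2
  have e1 : ∑ r ∈ range R, ∑ t ∈ range K, max (ws Q c (r + R * t)) 0 *
        (((Sv U z r).card : ℝ) - ((HX_left P (Sv U z r) (r + R * t)).card : ℝ)) =
      (mP Q (fun n => max (ws Q c n) 0 * ((Sv U z n).card : ℝ)) -
        mP Q (fun n => max (ws Q c n) 0 * ((Sv U z' n).card : ℝ))) * PP Q := by
    rw [sub_mul, hmP, hmP, ← sum_sub_distrib]
    refine sum_congr rfl fun r _ => ?_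
    rw [← sum_sub_distrib]
    refine sum_congr rfl fun t _ => ?_
    rw [hS1, hS2]
    ring
  have e2 : ∑ r ∈ range R, ((Sv U z r).card : ℝ) * ∑ t ∈ range K, max (ws Q c (r + R * t)) 0 =
      mP Q (fun n => max (ws Q c n) 0 * ((Sv U z n).card : ℝ)) * PP Q := by
    rw [hmP]
    refine sum_congr rfl fun r _ => ?_
    rw [mul_sum]
    refine sum_congr rfl fun t _ => ?_
    rw [hS1]
    ring
  have e3 : ∑ r ∈ range R, ∑ t ∈ range K, max (ws Q c (r + R * t)) 0 =
      mP Q (fun n => max (ws Q c n) 0) * PP Q := by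
    rw [hmP]
  have e4 : ∑ r ∈ range R, ∑ t ∈ range K, max (-ws Q c (r + R * t)) 0 =
      mP Q (fun n => max (-ws Q c n) 0) * PP Q := by
    rw [hmP]
  rw [e1, sum_add_distrib, ← mul_sum, e2, ← mul_sum, ← sum_div, sum_add_distrib, ← mul_sum, e3, e4] at h3
  have hW : 0 ≤ mP Q (fun n => max (ws Q c n) 0) :=
    div_nonneg (sum_nonneg fun _ _ => le_max_right _ _) (Nat.cast_nonneg _)
  have hV : 0 ≤ mP Q (fun n => max (-ws Q c n) 0) :=
    div_nonneg (sum_nonneg fun _ _ => le_max_right _ _) (Nat.cast_nonneg _)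
  have hJR : ((U / b + 1 : ℕ) : ℝ) ≤ (U : ℝ) / b + 1 := by
    push_cast
    have := Nat.cast_div_le (α := ℝ) (m := U) (n := b)
    linarith
  have h5 : mP Q (fun n => max (ws Q c n) 0 * ((Sv U z n).card : ℝ)) -
        mP Q (fun n => max (ws Q c n) 0 * ((Sv U z' n).card : ℝ)) ≤
      (1 + 11 * l + 2 * ((b : ℝ) / z)) * (∑ p ∈ P, 1 / (p : ℝ)) *
        mP Q (fun n => max (ws Q c n) 0 * ((Sv U z n).card : ℝ)) +
      ((U / b + 1 : ℕ) : ℝ) * (((n : ℝ) / m * mP Q (fun n => max (ws Q c n) 0) +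
        mP Q (fun n => max (-ws Q c n) 0)) / l) := by
    refine le_of_mul_le_mul_right ?_ hMR
    refine h3.trans (le_of_eq ?_)
    ring
  refine h5.trans ?_
  refine add_le_add le_rfl ?_
  refine mul_le_mul hJR ?_ (by positivity) (by positivity)
  refine div_le_div_of_nonneg_right ?_ hl.le
  exact add_le_add (mul_le_mul_of_nonneg_right hnm hW) le_rfl

end Pool.Agent.N422.LR
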