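import Pool.Agent.N422.LR.Stm

/-!
# LR/PX: the kernel is a polynomial after multiplication by `z ^ n`

Project LR (helper422), this file by helper451, adapted from `NW/POLY.lean` (helper849).
-/

set_option autoImplicit false

open Finset

namespace Pool.Agent.N422.LR

open Pool.Agent.N422.NW Pool.Agent.N422.SL Pool.Agent.N422.WS Pool.Agent.N422.LG

theorem PX_sum1 {K : Type} [Field K] [CharZero K] {N k : ℕ} {q : Fin N → ℕ}
    (σ : (i : Fin N) → Fin (q i) → Option (Fin k)) (hq : ∀ i, 2 * k ≤ q i ∧ 0 < q i) (h1 : One σ)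
    (r : Fin N → K) (x : Xs q) (i : Fin N) : ∑ c : Fin (q i), kx1 σ r x i c = 1 := by
  unfold kx1
  rw [Finset.sum_add_distrib, ← Finset.mul_sum, ← Finset.mul_sum, Finset.sum_ite_eq',
    if_pos (Finset.mem_univ _)]
  by_cases H : Hit (al σ x i) (σ i (x i))
  · rw [if_pos H, if_pos H]
    have hc : (univ.filter (fun c : Fin (q i) => Hit (al σ x i) (σ i c))).card =
        (al σ x i).card := by
      have e : univ.filter (fun c : Fin (q i) => Hit (al σ x i) (σ i c)) =
          (al σ x i).biUnion (fun a => univ.filter (fun c => σ i c = some a)) := by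
        ext c
        constructor
        · intro h
          rw [mem_filter] at h
          obtain ⟨a, ha, hc⟩ := h.2
          exact mem_biUnion.mpr ⟨a, ha, mem_filter.mpr ⟨mem_univ _, hc⟩⟩
        · intro h
          rw [mem_biUnion] at h
          obtain ⟨a, ha, hc⟩ := h
          exact mem_filter.mpr ⟨mem_univ _, a, ha, (mem_filter.mp hc).2⟩
      rw [e, card_biUnion]
      · rw [Finset.sum_congr rfl (fun a _ => h1 i a)]
        simp
      · intro a _ b _ hab
        rw [Function.onFun, Finset.disjoint_left]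
        intro c hc hc'
        rw [mem_filter] at hc hc'
        apply hab
        exact Option.some.inj (hc.2.symm.trans hc'.2)
    have hk : 1 ≤ k := by
      obtain ⟨a, ha, _⟩ := H
      have := a.2
      omega
    have hal : (al σ x i).card ≤ k := by
      have := card_le_univ (al σ x i)
      rwa [Fintype.card_fin] at this
    have hlt : (al σ x i).card < q i := by
      have := (hq i).1
      omega
    have hne : (q i : K) - ((al σ x i).card : K) ≠ 0 := by
      rw [sub_ne_zero]
      exact_mod_cast hlt.ne'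
    have hs : ∑ c : Fin (q i), (if Hit (al σ x i) (σ i c) then (0 : K) else
        1 / ((q i : K) - ((al σ x i).card : K))) = 1 := by
      rw [Finset.sum_ite, Finset.sum_const_zero, zero_add, Finset.sum_const, nsmul_eq_mul]
      have h3 : ((univ.filter (fun c : Fin (q i) => ¬ Hit (al σ x i) (σ i c))).card : K) =
          (q i : K) - ((al σ x i).card : K) := by
        have h2 := Finset.card_filter_add_card_filter_not (s := (univ : Finset (Fin (q i))))
          (fun c => Hit (al σ x i) (σ i c))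
        rw [hc, card_univ, Fintype.card_fin] at h2
        rw [eq_sub_iff_add_eq, add_comm]
        exact_mod_cast h2
      rw [h3, mul_one_div_cancel hne]
    rw [hs]
    ring
  · rw [if_neg H, if_neg H]
    ring

/-- the kernel on functions which depend only on `S` -/
theorem PX_ker {K : Type} [Field K] [CharZero K] {N k : ℕ} {q : Fin N → ℕ}
    (σ : (i : Fin N) → Fin (q i) → Option (Fin k)) (hq : ∀ i, 2 * k ≤ q i ∧ 0 < q i) (h1 : One σ)
    (r : Fin N → K) (x : Xs q) (S : Finset (Fin N)) (g : Xs q → K)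
    (hg : ∀ y y' : Xs q, (∀ i ∈ S, y i = y' i) → g y = g y') :
    ∑ x', kx σ r x x' * g x' = ∑ δ ∈ Fintype.piFinset
        (fun i => if i ∈ S then (univ : Finset (Fin (q i))) else {x i}),
      g δ * ∏ i ∈ S, kx1 σ r x i (δ i) := by
  classical
  obtain ⟨D, hD⟩ : ∃ D : Finset (Xs q), D = Fintype.piFinset
    (fun i => if i ∈ S then (univ : Finset (Fin (q i))) else {x i}) := ⟨_, rfl⟩
  rw [← hD]
  have h2 : ∀ y : Xs q, g y = ∑ δ ∈ D, g δ * ∏ i, (if i ∈ S then (if y i = δ i then (1 : K) else 0)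
      else 1) := by
    intro y
    obtain ⟨δ0, hδ0⟩ : ∃ δ0 : Xs q, δ0 = fun i => if i ∈ S then y i else x i := ⟨_, rfl⟩
    have hδD : δ0 ∈ D := by
      rw [hD, Fintype.mem_piFinset]
      intro i
      by_cases hi : i ∈ S
      · rw [if_pos hi]; exact Finset.mem_univ _
      · rw [if_neg hi, hδ0, Finset.mem_singleton]
        simp only [if_neg hi]
    rw [Finset.sum_eq_single_of_mem δ0 hδD]
    · have e1 : g y = g δ0 := by
        apply hg
        intro i hi
        rw [hδ0]
        simp only [if_pos hi]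
      rw [e1, Finset.prod_eq_one, mul_one]
      intro i _
      by_cases hi : i ∈ S
      · rw [if_pos hi, if_pos]
        rw [hδ0]
        simp only [if_pos hi]
      · rw [if_neg hi]
    · intro δ hδ hne
      have h2 : ∃ i ∈ S, y i ≠ δ i := by
        by_contra hcon
        push Not at hcon
        apply hne
        funext i
        rw [hδ0]
        by_cases hi : i ∈ S
        · simp only [if_pos hi]
          exact (hcon i hi).symm
        · simp only [if_neg hi]
          rw [hD, Fintype.mem_piFinset] at hδ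
          have h3 := hδ i
          rw [if_neg hi, Finset.mem_singleton] at h3
          exact h3
      obtain ⟨i, hi, hne'⟩ := h2
      rw [Finset.prod_eq_zero (Finset.mem_univ i), mul_zero]
      rw [if_pos hi, if_neg hne']
  have h3 : ∀ δ : Xs q, ∑ y : Xs q, (∏ i, kx1 σ r x i (y i)) *
      ∏ i, (if i ∈ S then (if y i = δ i then (1 : K) else 0) else 1) =
      ∏ i ∈ S, kx1 σ r x i (δ i) := by
    intro δ
    have h3 : ∀ y : Xs q, (∏ i, kx1 σ r x i (y i)) *
        ∏ i, (if i ∈ S then (if y i = δ i then (1 : K) else 0) else 1) =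
        ∏ i, (kx1 σ r x i (y i) * (if i ∈ S then (if y i = δ i then (1 : K) else 0) else 1)) :=
      fun y => Finset.prod_mul_distrib.symm
    have h4 := Finset.prod_univ_sum (fun i : Fin N => (univ : Finset (Fin (q i))))
      (fun i (c : Fin (q i)) => kx1 σ r x i c *
        (if i ∈ S then (if c = δ i then (1 : K) else 0) else 1))
    rw [Fintype.piFinset_univ] at h4
    rw [Finset.sum_congr rfl fun y _ => h3 y, ← h4]
    have h5 : ∀ i, ∑ c : Fin (q i), kx1 σ r x i c *
        (if i ∈ S then (if c = δ i then (1 : K) else 0) else 1) =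
        if i ∈ S then kx1 σ r x i (δ i) else 1 := by
      intro i
      by_cases hi : i ∈ S
      · simp only [if_pos hi, mul_ite, mul_one, mul_zero]
        rw [Finset.sum_ite_eq', if_pos (Finset.mem_univ _)]
      · simp only [if_neg hi, mul_one]
        exact PX_sum1 σ hq h1 r x i
    rw [Finset.prod_congr rfl fun i _ => h5 i, Finset.prod_ite_mem, Finset.univ_inter]
  unfold kx
  rw [Finset.sum_congr rfl fun y _ => by rw [h2 y, Finset.mul_sum], Finset.sum_comm]
  refine Finset.sum_congr rfl fun δ _ => ?_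
  rw [← h3 δ, Finset.mul_sum]
  refine Finset.sum_congr rfl fun y _ => ?_
  ring

open Polynomial in
/-- the local factor -/
theorem PX_loc {N k : ℕ} {q : Fin N → ℕ} (σ : (i : Fin N) → Fin (q i) → Option (Fin k))
    (c R : Fin N → ℝ) (ν : Fin N → ℕ) (x : Xs q) (i : Fin N)
    (u : Fin (q i)) : ∃ p : ℂ[X], ∀ z : ℂ, z ≠ 0 →
      p.eval z = z ^ ν i * kx1 σ
        (fun i => (R i : ℂ) * ((c i : ℂ) - (z ^ ν i + (z⁻¹) ^ ν i) / 2)) x i u := by
  obtain ⟨a, ha⟩ : ∃ a : ℂ, a = if u = x i then 1 else 0 := ⟨_, rfl⟩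
  obtain ⟨b, hb⟩ : ∃ b : ℂ, b = if Hit (al σ x i) (σ i u) then 0 else
    1 / ((q i : ℂ) - ((al σ x i).card : ℂ)) := ⟨_, rfl⟩
  obtain ⟨h, hh⟩ : ∃ h : ℂ, h = if Hit (al σ x i) (σ i (x i)) then 1 else 0 := ⟨_, rfl⟩
  refine ⟨C a * X ^ ν i + C (h * (b - a) * (R i : ℂ)) * (C (c i : ℂ) * X ^ ν i -
    C (1 / 2) * (X ^ (2 * ν i) + C 1)), ?_⟩
  intro z hz
  have h3 : z ^ ν i * (z⁻¹) ^ ν i = 1 := by
    rw [← mul_pow, mul_inv_cancel₀ hz, one_pow]
  unfold kx1
  beta_reduce
  rw [← ha, ← hb]
  simp only [eval_add, eval_mul, eval_C, eval_pow, eval_X, eval_sub]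
  obtain ⟨ρ, hρ⟩ : ∃ ρ : ℂ, ρ = (R i : ℂ) * ((c i : ℂ) - (z ^ ν i + (z⁻¹) ^ ν i) / 2) := ⟨_, rfl⟩
  rw [← hρ]
  have h5 : (if Hit (al σ x i) (σ i (x i)) then 1 - ρ else 1) = 1 - h * ρ := by
    rw [hh]
    split_ifs <;> ring
  have h6 : (if Hit (al σ x i) (σ i (x i)) then ρ else 0) = h * ρ := by
    rw [hh]
    split_ifs <;> ring
  rw [h5, h6]
  have h4 : z ^ ν i * ((1 - h * ρ) * a + h * ρ * b) =
      a * z ^ ν i + h * (b - a) * (R i : ℂ) * ((c i : ℂ) * z ^ ν i -
        1 / 2 * (z ^ ν i * z ^ ν i + z ^ ν i * (z⁻¹) ^ ν i)) := by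
    rw [hρ]
    ring
  rw [h4, h3, ← pow_add, ← two_mul]

theorem t_PX : S_PX := by
  classical
  intro N k n q σ ν f hq h1 hf c R x
  obtain ⟨m, S, g, hS, hg, hfg⟩ := hf
  choose p hp using fun (i : Fin N) (u : Fin (q i)) => PX_loc σ c R ν x i u
  refine ⟨∑ j : Fin m, ∑ δ ∈ Fintype.piFinset
        (fun i => if i ∈ S j then (univ : Finset (Fin (q i))) else {x i}),
      Polynomial.C (g j δ : ℂ) * (Polynomial.X ^ (n - ∑ i ∈ S j, ν i) *
        ∏ i ∈ S j, p i (δ i)), ?_⟩
  intro z hz
  have h2 : ∑ x', kx σ (fun i => (R i : ℂ) * ((c i : ℂ) - (z ^ ν i + (z⁻¹) ^ ν i) / 2)) x x' *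
      (f x' : ℂ) = ∑ j : Fin m, ∑ x', kx σ
        (fun i => (R i : ℂ) * ((c i : ℂ) - (z ^ ν i + (z⁻¹) ^ ν i) / 2)) x x' * (g j x' : ℂ) := by
    rw [Finset.sum_comm]
    refine Finset.sum_congr rfl fun x' _ => ?_
    rw [← Finset.mul_sum, hfg x']
    push_cast
    rfl
  rw [h2, Finset.mul_sum, Polynomial.eval_finsetSum]
  refine Finset.sum_congr rfl fun j _ => ?_
  rw [PX_ker σ hq h1 _ x (S j) (fun x' => (g j x' : ℂ)) (fun y₁ y₂ h => by
    rw [hg j y₁ y₂ h]), Finset.mul_sum, Polynomial.eval_finsetSum]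
  refine Finset.sum_congr rfl fun δ _ => ?_
  rw [Polynomial.eval_mul, Polynomial.eval_C, Polynomial.eval_mul, Polynomial.eval_pow,
    Polynomial.eval_X, Polynomial.eval_prod, Finset.prod_congr rfl fun i _ => hp i (δ i) z hz,
    Finset.prod_mul_distrib, Finset.prod_pow_eq_pow_sum]
  have h3 : z ^ n = z ^ (n - ∑ i ∈ S j, ν i) * z ^ (∑ i ∈ S j, ν i) := by
    rw [← pow_add, Nat.sub_add_cancel (hS j)]
  rw [h3]
  ring

end Pool.Agent.N422.LR
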