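import Pool.Agent.N422.LR.Stm
import Pool.Agent.N422.LG.REC

/-! Project LR (helper422): the recursion over the scales for real functions (LR/RX), by helper935
(adapted from LG/REC2 of helper602). -/

set_option autoImplicit false

open Finset

namespace Pool.Agent.N422.LR

open Pool.Agent.N422.NW Pool.Agent.N422.SL Pool.Agent.N422.WS Pool.Agent.N422.LG

lemma RX_mP_nonneg {Q : ℕ} {F : ℕ → ℝ} (h : ∀ n, 0 ≤ F n) : 0 ≤ mP Q F := by
  unfold mP
  exact div_nonneg (Finset.sum_nonneg (fun n _ => h n)) (Nat.cast_nonneg _)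

lemma RX_mP_sub (Q : ℕ) (F : ℕ → ℝ) :
    mP Q F = mP Q (fun n => max (F n) 0) - mP Q (fun n => max (-F n) 0) := by
  unfold mP
  rw [← sub_div, ← Finset.sum_sub_distrib]
  congr 1
  refine Finset.sum_congr rfl fun n _ => ?_
  rcases le_total 0 (F n) with h | h
  · rw [max_eq_left h, max_eq_right (by linarith), sub_zero]
  · rw [max_eq_right h, max_eq_left (by linarith)]
    ring

lemma RX_factor {δ a : ℝ} (hδ : 0 < δ) (hδ1 : δ ≤ 1 / 100) (ha : 0 ≤ a) (ha2 : a ≤ 2 * δ) :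
    Real.exp (-((1 + 100 * δ) * a)) ≤ 1 - (1 + 12 * δ) * a := by
  have hx0 : 0 ≤ (1 + 12 * δ) * a := by positivity
  have hx1 : (1 + 12 * δ) * a ≤ 1 / 2 := by nlinarith
  refine le_trans (Real.exp_le_exp.2 (neg_le_neg ?_)) (REC_exp hx0 hx1)
  have h1 : (1 + 12 * δ) * (1 + 12 * δ) ≤ 2 := by nlinarith
  have h2 : (1 + 12 * δ) * (1 + 12 * δ) * a ≤ 2 * (2 * δ) := mul_le_mul h1 ha2 ha (by norm_num)
  have h3 : (1 + 12 * δ) * a + ((1 + 12 * δ) * a) ^ 2 =
      a * ((1 + 12 * δ) + (1 + 12 * δ) * (1 + 12 * δ) * a) := by ring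
  rw [h3, mul_comm (1 + 100 * δ) a]
  apply mul_le_mul_of_nonneg_left _ ha
  linarith

/-- one window -/
lemma RX_step (hH : S_HX) (Q U z z' : ℕ) (δ : ℝ) (c : ℕ → ℕ → ℝ) (hz : 2 ≤ z) (hzz : z ≤ z')
    (hzQ : z' ≤ Q) (hδ : 0 < δ) (hδ1 : δ ≤ 1 / 100) (hzδ : 4 / (z : ℝ) ≤ δ)
    (hw : 0 < mP Q (ws Q c)) :
    (1 - (1 + 12 * δ) * RECD z' z) * mP Q (fun n => max (ws Q c n) 0 * ((Sv U z n).card : ℝ)) -
      (12 / δ ^ 2 * ((U / (z : ℝ) + 1) * (Real.log Q / Real.log z))) *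
        mP Q (fun n => max (ws Q c n) 0) ≤
    mP Q (fun n => max (ws Q c n) 0 * ((Sv U z' n).card : ℝ)) := by
  have hz0 : (0 : ℝ) < z := by exact_mod_cast (by omega : 0 < z)
  rw [div_le_iff₀ hz0] at hzδ
  -- the number b
  obtain ⟨b, hb1, hb2, hb3⟩ : ∃ b : ℕ, 1 ≤ b ∧ (b : ℝ) ≤ δ * z / 2 ∧ δ * z / 4 ≤ (b : ℝ) := by
    refine ⟨⌊δ * z / 2⌋₊, ?_, ?_, ?_⟩
    · rw [Nat.one_le_floor_iff]
      linarith
    · exact Nat.floor_le (by positivity)
    · have := Nat.lt_floor_add_one (δ * z / 2)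
      linarith
  have hb0 : (0 : ℝ) < b := by exact_mod_cast (by omega : 0 < b)
  have h2b : 2 * b ≤ z := by
    have : (2 : ℝ) * b ≤ z := by nlinarith
    exact_mod_cast this
  have h1 := hH Q U z z' b δ c hz hzz hzQ hb1 h2b hδ (by linarith)
  obtain ⟨X, hX⟩ : ∃ X, X = mP Q (fun n => max (ws Q c n) 0 * ((Sv U z n).card : ℝ)) := ⟨_, rfl⟩
  obtain ⟨X', hX'⟩ : ∃ X', X' = mP Q (fun n => max (ws Q c n) 0 * ((Sv U z' n).card : ℝ)) :=
    ⟨_, rfl⟩
  obtain ⟨Ep, hEp⟩ : ∃ Ep, Ep = mP Q (fun n => max (ws Q c n) 0) := ⟨_, rfl⟩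
  obtain ⟨Em, hEm⟩ : ∃ Em, Em = mP Q (fun n => max (-ws Q c n) 0) := ⟨_, rfl⟩
  have hX0 : 0 ≤ X := by
    rw [hX]
    exact RX_mP_nonneg fun n => mul_nonneg (le_max_right _ _) (Nat.cast_nonneg _)
  have hEp0 : 0 ≤ Ep := by
    rw [hEp]
    exact RX_mP_nonneg fun n => le_max_right _ _
  have hEm0 : 0 ≤ Em := by
    rw [hEm]
    exact RX_mP_nonneg fun n => le_max_right _ _
  have hle : Em ≤ Ep := by
    have := RX_mP_sub Q (ws Q c)
    rw [← hEp, ← hEm] at this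
    linarith
  have hD : (∑ p ∈ PQ z' z, 1 / (p : ℝ)) = RECD z' z := rfl
  rw [← hX, ← hX', ← hEp, ← hEm, hD] at h1
  rw [← hX, ← hX', ← hEp]
  have hD0 : 0 ≤ RECD z' z := RECD_nonneg z' z
  obtain ⟨D, hDD⟩ : ∃ D, D = RECD z' z := ⟨_, rfl⟩
  rw [← hDD] at h1 hD0 ⊢
  -- the logarithms
  have hlz : 0 < Real.log z := Real.log_pos (by exact_mod_cast (by omega : 1 < z))
  have hL1 : 1 ≤ Real.log Q / Real.log z := by
    rw [one_le_div hlz]
    exact Real.log_le_log hz0 (by exact_mod_cast hzz.trans hzQ)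
  obtain ⟨L, hL⟩ : ∃ L, L = Real.log Q / Real.log z := ⟨_, rfl⟩
  rw [← hL] at h1 hL1 ⊢
  -- the main term
  have hbz : (b : ℝ) / z ≤ δ / 2 := by
    rw [div_le_iff₀ hz0]
    linarith
  have h2 : (1 + 11 * δ + 2 * ((b : ℝ) / z)) * D * X ≤ (1 + 12 * δ) * D * X := by
    apply mul_le_mul_of_nonneg_right _ hX0
    apply mul_le_mul_of_nonneg_right _ hD0
    linarith
  -- the error
  have hU0 : (0 : ℝ) ≤ U := Nat.cast_nonneg U
  have h3 : (U : ℝ) / b + 1 ≤ 4 / δ * (U / z + 1) := by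
    have h4 : (U : ℝ) / b ≤ U / (δ * z / 4) := div_le_div_of_nonneg_left hU0 (by positivity) hb3
    have h5 : (U : ℝ) / (δ * z / 4) = 4 / δ * (U / z) := by
      field_simp
    have h6 : 1 ≤ 4 / δ := by
      rw [le_div_iff₀ hδ]
      linarith
    rw [mul_add, mul_one]
    linarith
  have h4 : (2 * L * Ep + Em) / δ ≤ 3 * L * Ep / δ := by
    apply div_le_div_of_nonneg_right _ hδ.le
    nlinarith
  have h5 : ((U : ℝ) / b + 1) * ((2 * L * Ep + Em) / δ) ≤
      (4 / δ * (U / z + 1)) * (3 * L * Ep / δ) := by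
    apply mul_le_mul h3 h4 (by positivity) (by positivity)
  have h6 : (4 / δ * ((U : ℝ) / z + 1)) * (3 * L * Ep / δ) =
      (12 / δ ^ 2 * ((U / (z : ℝ) + 1) * L)) * Ep := by
    field_simp
    ring
  rw [h6] at h5
  have h7 : (1 - (1 + 12 * δ) * D) * X = X - (1 + 12 * δ) * D * X := by ring
  rw [h7]
  linarith

lemma RX_exp {δ a : ℝ} (hδ1 : δ ≤ 1 / 100) (ha2 : a ≤ 2 * δ) : Real.exp a ≤ 8 / 7 := by
  have h1 : Real.exp a ≤ Real.exp (1 / 8) := Real.exp_le_exp.2 (by linarith)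
  have h2 : (7 / 8 : ℝ) ≤ Real.exp (-(1 / 8)) := by
    have := Real.add_one_le_exp (-(1 / 8) : ℝ)
    linarith
  have h3 : Real.exp (1 / 8) * Real.exp (-(1 / 8)) = 1 := by rw [← Real.exp_add]; simp
  have h4 : Real.exp (1 / 8) * (7 / 8) ≤ 1 :=
    (mul_le_mul_of_nonneg_left h2 (Real.exp_pos _).le).trans h3.le
  linarith

/-- the error of a step, multiplied by the later factors -/
lemma RX_err {δ K a b L : ℝ} (U y z : ℝ) (hU : 0 ≤ U) (hy : 0 < y) (hyz : y ≤ z) (hδ : 0 < δ)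
    (hδ1 : δ ≤ 1 / 100) (ha2 : a ≤ 2 * δ) (hb : 0 ≤ b) (hL : 0 ≤ L)
    (hK : Real.exp (-(a + b)) * L ≤ K) :
    Real.exp (-((1 + 100 * δ) * b)) * (12 / δ ^ 2 * ((U / z + 1) * L)) ≤
      (U / y + 1) * (100 * K / δ ^ 2) := by
  have h1 : Real.exp (-((1 + 100 * δ) * b)) ≤ Real.exp (-(a + b)) * Real.exp a := by
    rw [← Real.exp_add]
    apply Real.exp_le_exp.2
    nlinarith [mul_nonneg hδ.le hb]
  have h2 : Real.exp (-(a + b)) * Real.exp a ≤ Real.exp (-(a + b)) * (8 / 7) :=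
    mul_le_mul_of_nonneg_left (RX_exp hδ1 ha2) (Real.exp_pos _).le
  have h3 : Real.exp (-((1 + 100 * δ) * b)) * L ≤ 8 / 7 * K := by
    calc Real.exp (-((1 + 100 * δ) * b)) * L ≤ Real.exp (-(a + b)) * (8 / 7) * L :=
          mul_le_mul_of_nonneg_right (h1.trans h2) hL
      _ = 8 / 7 * (Real.exp (-(a + b)) * L) := by ring
      _ ≤ 8 / 7 * K := mul_le_mul_of_nonneg_left hK (by norm_num)
  have hz : 0 < z := hy.trans_le hyz
  have h4 : U / z + 1 ≤ U / y + 1 := by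
    have := div_le_div_of_nonneg_left hU hy hyz
    linarith
  have h5 : 0 ≤ U / z + 1 := by positivity
  have h6 : 0 ≤ Real.exp (-((1 + 100 * δ) * b)) * L := mul_nonneg (Real.exp_pos _).le hL
  have hK0 : 0 ≤ K := (mul_nonneg (Real.exp_pos _).le hL).trans hK
  have h7 : 12 * (Real.exp (-((1 + 100 * δ) * b)) * L) ≤ 100 * K := by linarith
  have h8 : 0 ≤ 12 * (Real.exp (-((1 + 100 * δ) * b)) * L) / δ ^ 2 :=
    div_nonneg (mul_nonneg (by norm_num) h6) (by positivity)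
  calc Real.exp (-((1 + 100 * δ) * b)) * (12 / δ ^ 2 * ((U / z + 1) * L))
      = (U / z + 1) * (12 * (Real.exp (-((1 + 100 * δ) * b)) * L) / δ ^ 2) := by
        ring
    _ ≤ (U / y + 1) * (100 * K / δ ^ 2) := by
        apply mul_le_mul h4 _ h8 (h5.trans h4)
        exact div_le_div_of_nonneg_right h7 (by positivity)

theorem t_RX (h : S_HX) : S_RX := by
  refine ⟨100, by norm_num, ?_⟩
  intro Q U y δ K c hy hyQ hδ hδ1 hyδ hw hK
  have hy0 : (0 : ℝ) < y := by exact_mod_cast (by omega : 0 < y)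
  obtain ⟨Ep, hEp⟩ : ∃ Ep, Ep = mP Q (fun n => max (ws Q c n) 0) := ⟨_, rfl⟩
  have hB : 0 ≤ Ep := by
    rw [hEp]
    exact RX_mP_nonneg fun n => le_max_right _ _
  have hKD : ∀ z : ℕ, y ≤ z → z ≤ Q → Real.exp (-RECD Q z) * (Real.log Q / Real.log z) ≤ K := hK
  have hlog : ∀ z : ℕ, y ≤ z → 0 ≤ Real.log Q / Real.log z := fun z _ =>
    div_nonneg (Real.log_natCast_nonneg Q) (Real.log_natCast_nonneg z)
  have hK0 : 0 ≤ K := (mul_nonneg (Real.exp_pos _).le (hlog Q hyQ)).trans (hKD Q hyQ le_rfl)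
  obtain ⟨E, hE⟩ : ∃ E : ℝ, E = (U / y + 1) * (100 * K / δ ^ 2) := ⟨_, rfl⟩
  have hE0 : 0 ≤ E := by
    rw [hE]
    positivity
  obtain ⟨A, hA⟩ : ∃ A : ℕ → ℝ, ∀ z, A z = mP Q (fun n => max (ws Q c n) 0 * ((Sv U z n).card : ℝ)) :=
    ⟨_, fun _ => rfl⟩
  have hA0 : ∀ z, 0 ≤ A z := fun z => by
    rw [hA]
    exact RX_mP_nonneg (fun n => mul_nonneg (le_max_right _ _) (Nat.cast_nonneg _))
  have hEB : 0 ≤ E * Ep := mul_nonneg hE0 hB
  have step : ∀ z z', y ≤ z → z ≤ z' → z' ≤ Q → RECD z' z ≤ 2 * δ →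
      Real.exp (-((1 + 100 * δ) * RECD Q z)) * A z - E * Ep ≤
        Real.exp (-((1 + 100 * δ) * RECD Q z')) * A z' := by
    intro z z' h1 h2 h3 h4
    have hzδ : 4 / (z : ℝ) ≤ δ :=
      (div_le_div_of_nonneg_left (by norm_num) hy0 (by exact_mod_cast h1)).trans hyδ
    have h5 := RX_step h Q U z z' δ c (hy.trans h1) h2 h3 hδ hδ1 hzδ hw
    rw [← hA, ← hA, ← hEp] at h5
    have hd := RECD_add h2 h3
    have h6 := mul_le_mul_of_nonneg_right (RX_factor hδ hδ1 (RECD_nonneg z' z) h4) (hA0 z)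
    have hk := hKD z h1 (h2.trans h3)
    rw [hd] at hk
    have h7 := RX_err (U : ℝ) (y : ℝ) (z : ℝ) (Nat.cast_nonneg U) hy0 (by exact_mod_cast h1) hδ hδ1
      h4 (RECD_nonneg Q z') (hlog z h1) hk
    rw [← hE] at h7
    have h8 := mul_le_mul_of_nonneg_right h7 hB
    obtain ⟨f, hf⟩ : ∃ f, f = Real.exp (-((1 + 100 * δ) * RECD Q z')) := ⟨_, rfl⟩
    have hf0 : 0 ≤ f := by rw [hf]; exact (Real.exp_pos _).le
    rw [← hf] at h8 ⊢
    have h9 : Real.exp (-((1 + 100 * δ) * RECD Q z)) =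
        f * Real.exp (-((1 + 100 * δ) * RECD z' z)) := by
      rw [hf, ← Real.exp_add, hd]
      congr 1
      ring
    rw [h9]
    have h10 := mul_le_mul_of_nonneg_left h6 hf0
    have h11 := mul_le_mul_of_nonneg_left h5 hf0
    rw [mul_sub] at h11
    have h13 : f * ((12 / δ ^ 2 * ((U / (z : ℝ) + 1) * (Real.log Q / Real.log z))) * Ep) =
      f * (12 / δ ^ 2 * ((U / (z : ℝ) + 1) * (Real.log Q / Real.log z))) * Ep := by ring
    rw [h13] at h11
    have h14 : f * Real.exp (-((1 + 100 * δ) * RECD z' z)) * A z =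
      f * (Real.exp (-((1 + 100 * δ) * RECD z' z)) * A z) := by ring
    rw [h14]
    linarith
  have main : ∀ k z, Q - z = k → y ≤ z → z ≤ Q →
      Real.exp (-((1 + 100 * δ) * RECD Q z)) * A z - (RECD Q z / δ + 1) * E * Ep ≤ A Q := by
    intro k
    induction k using Nat.strong_induction_on with
    | _ k ih =>
      intro z hk hyz hzQ
      by_cases hD : RECD Q z ≤ δ
      · have h1 := step z Q hyz hzQ le_rfl (by linarith)
        rw [RECD_self Q] at h1
        simp only [mul_zero, neg_zero, Real.exp_zero, one_mul] at h1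
        have h2 : 0 ≤ RECD Q z / δ * (E * Ep) :=
          mul_nonneg (div_nonneg (RECD_nonneg Q z) hδ.le) hEB
        have h3 : (RECD Q z / δ + 1) * E * Ep =
          RECD Q z / δ * (E * Ep) + E * Ep := by ring
        rw [h3]
        linarith
      · rw [not_le] at hD
        classical
        have hex : ∃ z', z ≤ z' ∧ δ < RECD z' z := ⟨Q, hzQ, hD⟩
        obtain ⟨z', hz', hmin⟩ : ∃ z', (z ≤ z' ∧ δ < RECD z' z) ∧
            ∀ m < z', ¬ (z ≤ m ∧ δ < RECD m z) :=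
          ⟨Nat.find hex, Nat.find_spec hex, fun m hm => Nat.find_min hex hm⟩
        have hzQ' : z' ≤ Q := by
          by_contra hcon
          exact hmin Q (not_le.1 hcon) ⟨hzQ, hD⟩
        have hne : z ≠ z' := by
          rintro rfl
          have := hz'.2
          rw [RECD_self] at this
          linarith
        have hlt : z < z' := lt_of_le_of_ne hz'.1 hne
        obtain ⟨m, rfl⟩ : ∃ m, z' = m + 1 := ⟨z' - 1, by omega⟩
        have hm : RECD m z ≤ δ := by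
          have := hmin m (by omega)
          push Not at this
          exact this (by omega)
        have h2 : RECD (m + 1) z ≤ 2 * δ := by
          have h3 := RECD_succ z m
          have h4 : 1 / ((m : ℝ) + 1) ≤ 1 / (y : ℝ) := by
            apply one_div_le_one_div_of_le hy0
            exact_mod_cast (by omega : y ≤ m + 1)
          have h5 : 1 / (y : ℝ) ≤ 4 / (y : ℝ) :=
            div_le_div_of_nonneg_right (by norm_num) hy0.le
          linarith
        have h3 := step z (m + 1) hyz hlt.le hzQ' h2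
        have h4 := ih (Q - (m + 1)) (by omega) (m + 1) rfl (by omega) hzQ'
        have h5 := RECD_add hlt.le hzQ'
        have h10 : (RECD Q (m + 1) / δ + 2) * (E * Ep) ≤ (RECD Q z / δ + 1) * (E * Ep) := by
          apply mul_le_mul_of_nonneg_right _ hEB
          rw [h5, add_div]
          have h11 : 1 ≤ RECD (m + 1) z / δ := by
            rw [le_div_iff₀ hδ]
            linarith [hz'.2]
          linarith
        have h12 : (RECD Q z / δ + 1) * E * Ep = (RECD Q z / δ + 1) * (E * Ep) := by ring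
        have h13 : (RECD Q (m + 1) / δ + 1) * E * Ep + E * Ep =
          (RECD Q (m + 1) / δ + 2) * (E * Ep) := by ring
        rw [h12]
        linarith
  have h1 := main (Q - y) y rfl le_rfl hyQ
  rw [hA, hA, hE, hEp] at h1
  exact h1

end Pool.Agent.N422.LR
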