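import Pool.Agent.N422.LR.Stm

/-! LR/WX: the model, one window. -/

set_option autoImplicit false

open Finset

namespace Pool.Agent.N422.LR

open Pool.Agent.N422.NW Pool.Agent.N422.SL Pool.Agent.N422.WS Pool.Agent.N422.LG

theorem WX_cosh {x : ℝ} (hx : 1 ≤ x) : Real.cosh x ≤ 11 / 8 * Real.sinh x := by
  rw [Real.cosh_eq, Real.sinh_eq]
  have h1 : Real.exp 1 ≤ Real.exp x := Real.exp_le_exp.2 hx
  have h2 := Real.exp_one_gt_d9
  have h3 : Real.exp (-x) * Real.exp x = 1 := by
    rw [← Real.exp_add]
    simp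
  have h4 := Real.exp_pos (-x)
  have h5 : (2.7 : ℝ) ≤ Real.exp x := by
    norm_num at h2 ⊢
    linarith
  have h6 : 2.7 * Real.exp (-x) ≤ 1 := by
    nlinarith
  have h7 : 7 * Real.exp (-x) ≤ Real.exp x := by
    norm_num at h5 h6 ⊢
    linarith
  linarith

theorem WX_hit {N k : ℕ} {q : Fin N → ℕ} (σ : (i : Fin N) → Fin (q i) → Option (Fin k)) (x : Xs q) :
    (k : ℝ) - ((al σ x N).card : ℝ) ≤ ∑ i : Fin N, (if Hit (al σ x i) (σ i (x i)) then (1 : ℝ) else 0) := by
  have hstep : ∀ n : ℕ, ∀ hn : n ≤ N, (k : ℝ) - ((al σ x n).card : ℝ) ≤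
      ∑ i ∈ univ.filter (fun i : Fin N => (i : ℕ) < n), (if Hit (al σ x i) (σ i (x i)) then (1 : ℝ) else 0) := by
    intro n
    induction n with
    | zero =>
      intro _
      have h0 : al σ x 0 = univ := by
        unfold al
        apply filter_true_of_mem
        intro a _ j hj
        exact absurd hj (Nat.not_lt_zero _)
      rw [h0, card_univ, Fintype.card_fin]
      simp
    | succ n ih =>
      intro hn
      have hn' : n < N := hn
      have ih' := ih hn'.le
      have hf : univ.filter (fun i : Fin N => (i : ℕ) < n + 1) =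
          insert (⟨n, hn'⟩ : Fin N) (univ.filter (fun i : Fin N => (i : ℕ) < n)) := by
        ext i
        rw [mem_filter, mem_insert, mem_filter]
        constructor
        · rintro ⟨_, h⟩
          rcases Nat.lt_succ_iff_lt_or_eq.1 h with h1 | h1
          · exact Or.inr ⟨mem_univ _, h1⟩
          · exact Or.inl (Fin.ext h1)
        · rintro (h | ⟨_, h⟩)
          · subst h
            exact ⟨mem_univ _, Nat.lt_succ_self _⟩
          · exact ⟨mem_univ _, Nat.lt_succ_of_lt h⟩
      rw [hf, sum_insert (by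
        rw [mem_filter]
        rintro ⟨_, h⟩
        exact lt_irrefl _ h)]
      have hcard : ((al σ x n).card : ℝ) ≤ ((al σ x (n + 1)).card : ℝ) +
          (if Hit (al σ x ((⟨n, hn'⟩ : Fin N) : ℕ)) (σ ⟨n, hn'⟩ (x ⟨n, hn'⟩)) then (1 : ℝ) else 0) := by
        by_cases hh : Hit (al σ x n) (σ ⟨n, hn'⟩ (x ⟨n, hn'⟩))
        · rw [if_pos hh]
          obtain ⟨a, ha, hs⟩ := hh
          have hsub : al σ x n ⊆ insert a (al σ x (n + 1)) := by
            intro b hb
            rw [mem_insert]
            by_cases hab : b = a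
            · exact Or.inl hab
            · right
              unfold al at hb ⊢
              rw [mem_filter] at hb ⊢
              refine ⟨mem_univ _, fun j hj => ?_⟩
              rcases Nat.lt_succ_iff_lt_or_eq.1 hj with h1 | h1
              · exact hb.2 j h1
              · have hj' : j = ⟨n, hn'⟩ := Fin.ext h1
                subst hj'
                rw [hs]
                intro h2
                exact hab (Option.some.inj h2).symm
          have h3 := (card_le_card hsub).trans (card_insert_le _ _)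
          exact_mod_cast h3
        · rw [if_neg hh, add_zero]
          have hsub : al σ x n ⊆ al σ x (n + 1) := by
            intro b hb
            have hb' := hb
            unfold al at hb ⊢
            rw [mem_filter] at hb ⊢
            refine ⟨mem_univ _, fun j hj => ?_⟩
            rcases Nat.lt_succ_iff_lt_or_eq.1 hj with h1 | h1
            · exact hb.2 j h1
            · have hj' : j = ⟨n, hn'⟩ := Fin.ext h1
              subst hj'
              intro h2
              exact hh ⟨b, hb', h2⟩
          exact_mod_cast card_le_card hsub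
      linarith
  have h := hstep N le_rfl
  have hu : univ.filter (fun i : Fin N => (i : ℕ) < N) = univ := by
    apply filter_true_of_mem
    intro i _
    exact i.2
  rwa [hu] at h

theorem t_WX (h : S_NX) : S_WX := by
  intro N k m n q σ ν f l κ hm hq hκ hκ0 hOne hν hL hl hl16
  have hmR : (0 : ℝ) < m := by exact_mod_cast hm
  have hq0 : ∀ i, (0 : ℝ) < q i := fun i => by exact_mod_cast (hq i).2
  have hx : ∀ i, (1 : ℝ) ≤ ν i * (1 / m) := by
    intro i
    rw [mul_one_div, le_div_iff₀ hmR, one_mul]
    exact_mod_cast hν i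
  have hs : ∀ i, (1 : ℝ) ≤ Real.sinh (ν i * (1 / m)) := fun i =>
    (hx i).trans (Real.self_le_sinh_iff.2 (by linarith [hx i]))
  have hc : ∀ i, Real.cosh (ν i * (1 / m)) ≤ 11 / 8 * Real.sinh (ν i * (1 / m)) := fun i =>
    WX_cosh (hx i)
  have hRs : ∀ i, l / Real.sinh (ν i * (1 / m)) * Real.sinh (ν i * (1 / m)) = l := fun i =>
    div_mul_cancel₀ l (by linarith [hs i])
  have hR0 : ∀ i, 0 ≤ l / Real.sinh (ν i * (1 / m)) := fun i =>
    div_nonneg hl.le (by linarith [hs i])
  have hRc : ∀ i, l / Real.sinh (ν i * (1 / m)) * Real.cosh (ν i * (1 / m)) ≤ 11 / 8 * l := by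
    intro i
    have e1 := mul_le_mul_of_nonneg_left (hc i) (hR0 i)
    have e2 := hRs i
    linarith
  have hR1 : ∀ i, l / Real.sinh (ν i * (1 / m)) ≤ l := fun i =>
    div_le_self hl.le (hs i)
  have hF0 : ∀ x, 0 ≤ max (f x) 0 := fun x => le_max_right _ _
  have hM0 : ∀ x, 0 ≤ max (-f x) 0 := fun x => le_max_right _ _
  obtain ⟨G, hG⟩ : ∃ G : ℝ, G = ∑ i, 1 / (q i : ℝ) := ⟨_, rfl⟩
  obtain ⟨E, hE⟩ : ∃ E : ℝ, E = ∑ x, max (f x) 0 := ⟨_, rfl⟩
  obtain ⟨F, hF⟩ : ∃ F : ℝ, F = ∑ x, max (-f x) 0 := ⟨_, rfl⟩
  have hG0 : 0 ≤ G := by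
    rw [hG]
    exact Finset.sum_nonneg fun i _ => by positivity
  have hE0 : 0 ≤ E := by
    rw [hE]
    exact Finset.sum_nonneg fun x _ => hF0 x
  have hFF0 : 0 ≤ F := by
    rw [hF]
    exact Finset.sum_nonneg fun x _ => hM0 x
  rcases hE0.eq_or_lt with hEz | hEp
  · -- all positive parts vanish
    have hz : ∀ x, max (f x) 0 = 0 := by
      intro x
      exact (Finset.sum_eq_zero_iff_of_nonneg (fun x _ => hF0 x)).1 (hE.symm.trans hEz.symm) x (mem_univ _)
    simp only [hz, zero_mul, sum_const_zero, mul_zero, zero_add]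
    rw [← hF]
    positivity
  · have key := h N k n q σ ν f hq hOne hL (1 / m) (by positivity)
      (fun i => l / Real.sinh (ν i * (1 / m))) (fun i => ⟨hR0 i, by
        have e1 := hRc i
        have e2 := hR1 i
        show l / Real.sinh (ν i * (1 / m)) * (Real.cosh (ν i * (1 / m)) + 1) ≤ 1 / 4
        rw [mul_add, mul_one]
        linarith⟩) (by rw [← hE]; exact hEp)
    obtain ⟨W, hW⟩ : ∃ W : ℝ, W = ∑ x, |f x| := ⟨_, rfl⟩
    rw [← hE, ← hW] at key
    have hWE : W = E + F := by
      rw [hW, hE, hF, ← sum_add_distrib]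
      apply sum_congr rfl
      intro x _
      rcases le_total 0 (f x) with h1 | h1
      · rw [abs_of_nonneg h1, max_eq_left h1, max_eq_right (by linarith), add_zero]
      · rw [abs_of_nonpos h1, max_eq_right h1, max_eq_left (by linarith), zero_add]
    have hlog : Real.log (W / E) * E ≤ F := by
      have hWp : 0 < W / E := by
        apply div_pos _ hEp
        rw [hWE]
        linarith
      have h1 := Real.log_le_sub_one_of_pos hWp
      have h2 : Real.log (W / E) * E ≤ (W / E - 1) * E := mul_le_mul_of_nonneg_right h1 hE0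
      have h3 : (W / E - 1) * E = F := by
        rw [sub_mul, div_mul_cancel₀ _ hEp.ne', hWE]
        ring
      linarith
    have hpt : ∀ x : Xs q, l * (((k : ℝ) - ((al σ x N).card : ℝ)) - (1 + 11 * l + 2 * κ) * G * k) ≤
        ∑ i : Fin N, l / Real.sinh (ν i * (1 / m)) * Real.sinh (ν i * (1 / m)) *
          ((if Hit (al σ x i) (σ i (x i)) then 1 else 0) -
            (1 + 8 * (l / Real.sinh (ν i * (1 / m))) * Real.cosh (ν i * (1 / m)) + 2 * k / q i) *
              (((al σ x i).card : ℝ) / q i)) := by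
      intro x
      have e1 : ∑ i : Fin N, l * ((if Hit (al σ x i) (σ i (x i)) then (1 : ℝ) else 0) -
          (1 + 11 * l + 2 * κ) * (k * (1 / q i))) ≤
        ∑ i : Fin N, l / Real.sinh (ν i * (1 / m)) * Real.sinh (ν i * (1 / m)) *
          ((if Hit (al σ x i) (σ i (x i)) then 1 else 0) -
            (1 + 8 * (l / Real.sinh (ν i * (1 / m))) * Real.cosh (ν i * (1 / m)) + 2 * k / q i) *
              (((al σ x i).card : ℝ) / q i)) := by
        refine Finset.sum_le_sum fun i _ => ?_
        rw [hRs i]
        refine mul_le_mul_of_nonneg_left ?_ hl.le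
        have a1 : ((al σ x i).card : ℝ) ≤ k := by
          have := (card_le_univ (al σ x i))
          rw [Fintype.card_fin] at this
          exact_mod_cast this
        have a2 : ((al σ x i).card : ℝ) / q i ≤ k * (1 / q i) := by
          rw [mul_one_div]
          exact div_le_div_of_nonneg_right a1 (hq0 i).le
        have a3 : 1 + 8 * (l / Real.sinh (ν i * (1 / m))) * Real.cosh (ν i * (1 / m)) + 2 * k / q i ≤
            1 + 11 * l + 2 * κ := by
          have b1 := hRc i
          have b2 := hκ i
          have b3 : 2 * (k : ℝ) / q i = 2 * ((k : ℝ) / q i) := by ring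
          rw [b3]
          linarith
        have a4 : (0 : ℝ) ≤ ((al σ x i).card : ℝ) / q i := by
          have := hq0 i
          positivity
        have a5 : (0 : ℝ) ≤ 1 + 11 * l + 2 * κ := by linarith
        have a6 := mul_le_mul a3 a2 a4 a5
        linarith
      refine le_trans ?_ e1
      rw [← Finset.mul_sum, Finset.sum_sub_distrib, ← Finset.mul_sum, ← Finset.mul_sum, ← hG]
      refine mul_le_mul_of_nonneg_left ?_ hl.le
      have e4 := WX_hit σ x
      have e5 : (1 + 11 * l + 2 * κ) * G * k = (1 + 11 * l + 2 * κ) * (k * G) := by ring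
      rw [e5]
      linarith
    obtain ⟨A, hA⟩ : ∃ A : ℝ, A = ∑ x, max (f x) 0 * ((k : ℝ) - ((al σ x N).card : ℝ)) := ⟨_, rfl⟩
    have hsum : l * (A - (1 + 11 * l + 2 * κ) * G * k * E) ≤ n * (1 / m) * E + F := by
      have e1 : l * (A - (1 + 11 * l + 2 * κ) * G * k * E) =
          ∑ x, max (f x) 0 * (l * (((k : ℝ) - ((al σ x N).card : ℝ)) - (1 + 11 * l + 2 * κ) * G * k)) := by
        rw [hA, hE, mul_sum, ← sum_sub_distrib, mul_sum]
        refine Finset.sum_congr rfl fun x _ => ?_
        ring
      rw [e1]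
      refine (Finset.sum_le_sum fun x _ => mul_le_mul_of_nonneg_left (hpt x) (hF0 x)).trans ?_
      refine key.trans ?_
      rw [add_mul]
      linarith
    rw [← hA, ← hG, ← hE, ← hF]
    have hfin : A - (1 + 11 * l + 2 * κ) * G * k * E ≤ (n * (1 / m) * E + F) / l := by
      rw [le_div_iff₀ hl]
      linarith
    have e7 : (n * (1 / m) * E + F) / l = ((n / m) * E + F) / l := by
      rw [mul_one_div]
    rw [e7] at hfin
    have e8 : (1 + 11 * l + 2 * κ) * G * k * E = (1 + 11 * l + 2 * κ) * G * (k * E) := by ring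
    rw [e8] at hfin
    linarith

end Pool.Agent.N422.LR
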