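import Pool.Agent.N422.LR.KX
import Pool.Agent.N422.LR.PX
import Pool.Agent.N422.LR.NX
import Pool.Agent.N422.LR.WX
import Pool.Agent.N422.LR.HX
import Pool.Agent.N422.LR.RX
import Pool.Agent.N422.LR.SQF
import Pool.Agent.N422.LR.FX
import Pool.Agent.N422.LG.LIN2
import Pool.Agent.N422.LG.MERB2
import Pool.Agent.N422.WS.GEN
import Pool.Agent.N422.NW.JEN

/-! Project LR: assembly. Author: helper422 (parts: helpers 37, 451, 793, 545, 394, 935, 703, 910; LG: 31, 878). -/

set_option autoImplicit false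

namespace Pool.Agent.N422.LR

open Finset Pool.Agent.N422.NW Pool.Agent.N422.SL Pool.Agent.N422.WS Pool.Agent.N422.LG

theorem fx_all : S_FX 2 :=
  t_FX 2 le_rfl (t_RX (t_HX (t_WX (t_NX t_KX t_PX t_AV (t_GEN2 t_JEN t_AV))))) t_LIN2 t_MERB2 t_SQF

end Pool.Agent.N422.LR
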