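import Pool.Agent.N422.LR.Stm

/-! Project LR (helper422), part LR/KX (helper37): the kernel which undoes hits and its adjoint. -/

set_option autoImplicit false

open Finset

namespace Pool.Agent.N422.LR

open Pool.Agent.N422.NW Pool.Agent.N422.SL Pool.Agent.N422.WS Pool.Agent.N422.LG

/-- sums of products in which the factor `i` depends on the coordinates `≤ i` only -/
lemma KX_key : ∀ (N : ℕ) (q : Fin N → ℕ) (B : (i : Fin N) → Xs q → Fin (q i) → ℝ)
    (b : Fin N → ℝ), (∀ i, 0 < q i) →
    (∀ i g g' c, (∀ j, j < i → g j = g' j) → B i g c = B i g' c) →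
    (∀ i g, ∑ c, B i g c = b i) → ∑ g : Xs q, ∏ i, B i g (g i) = ∏ i, b i := by
  intro N
  induction N with
  | zero =>
    intro q B b _ _ _
    simp
  | succ N ih =>
    intro q B b hq hB hb
    let d : Fin (q (Fin.last N)) := ⟨0, hq _⟩
    rw [← (Fin.snocEquiv (fun i : Fin (N + 1) => Fin (q i))).sum_comp, Fintype.sum_prod_type]
    have h1 : ∀ (c : Fin (q (Fin.last N))) (g : (i : Fin N) → Fin (q i.castSucc)),
        ∏ i, B i (Fin.snocEquiv (fun i : Fin (N + 1) => Fin (q i)) (c, g))
        ((Fin.snocEquiv (fun i : Fin (N + 1) => Fin (q i)) (c, g)) i) =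
        (∏ i : Fin N, B i.castSucc (Fin.snoc (α := fun i => Fin (q i)) g d) (g i)) *
          B (Fin.last N) (Fin.snoc (α := fun i => Fin (q i)) g d) c := by
      intro c g
      have e : (Fin.snocEquiv (fun i : Fin (N + 1) => Fin (q i)) (c, g)) =
        Fin.snoc (α := fun i => Fin (q i)) g c := rfl
      rw [e, Fin.prod_univ_castSucc]
      congr 1
      · refine prod_congr rfl fun i _ => ?_
        rw [Fin.snoc_castSucc]
        apply hB
        intro j hj
        have hj' : j.val < N := by
          have h3 : j.val < i.val := hj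
          have := i.isLt
          omega
        have ej : j = Fin.castSucc ⟨j.val, hj'⟩ := rfl
        rw [ej, Fin.snoc_castSucc, Fin.snoc_castSucc]
      · rw [Fin.snoc_last]
        apply hB
        intro j hj
        have hj' : j.val < N := hj
        have ej : j = Fin.castSucc ⟨j.val, hj'⟩ := rfl
        rw [ej, Fin.snoc_castSucc, Fin.snoc_castSucc]
    have h2 : ∑ c : Fin (q (Fin.last N)), ∑ g : (i : Fin N) → Fin (q i.castSucc),
        ∏ i, B i (Fin.snocEquiv (fun i : Fin (N + 1) => Fin (q i)) (c, g))
        ((Fin.snocEquiv (fun i : Fin (N + 1) => Fin (q i)) (c, g)) i) =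
        ∑ g : (i : Fin N) → Fin (q i.castSucc),
          (∏ i : Fin N, B i.castSucc (Fin.snoc (α := fun i => Fin (q i)) g d) (g i)) *
          b (Fin.last N) := by
      rw [sum_comm]
      refine sum_congr rfl fun g _ => ?_
      rw [sum_congr rfl fun c _ => h1 c g, ← mul_sum, hb]
    rw [h2, ← sum_mul, Fin.prod_univ_castSucc]
    congr 1
    refine ih (fun i => q i.castSucc)
      (fun i g c => B i.castSucc (Fin.snoc (α := fun i => Fin (q i)) g d) c)
      (fun i => b i.castSucc) (fun i => hq _) ?_ ?_
    · intro i g g' c h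
      apply hB
      intro j hj
      have hj' : j.val < N := by
        have h3 : j.val < i.val := hj
        have := i.isLt
        omega
      have ej : j = Fin.castSucc ⟨j.val, hj'⟩ := rfl
      rw [ej, Fin.snoc_castSucc, Fin.snoc_castSucc]
      exact h _ hj
    · intro i g
      exact hb _ _

/-- the number of the classes which hit a set of sites -/
lemma KX_count {k m : ℕ} (τ : Fin m → Option (Fin k))
    (h1 : ∀ a : Fin k, (univ.filter (fun u => τ u = some a)).card = 1) (s : Finset (Fin k)) :
    ∑ u, (if Hit s (τ u) then (1 : ℝ) else 0) = s.card := by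
  have h2 : ∀ u, (if Hit s (τ u) then (1 : ℝ) else 0) =
      ∑ a ∈ s, (if τ u = some a then (1 : ℝ) else 0) := by
    intro u
    by_cases h : Hit s (τ u)
    · rw [if_pos h]
      obtain ⟨a, ha, hu⟩ := h
      rw [sum_eq_single a]
      · rw [if_pos hu]
      · intro b _ hb
        rw [if_neg]
        intro h3
        rw [hu, Option.some_inj] at h3
        exact hb h3.symm
      · intro h3
        exact absurd ha h3
    · rw [if_neg h, sum_eq_zero]
      intro a ha
      rw [if_neg]
      intro h3
      exact h ⟨a, ha, h3⟩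
  rw [sum_congr rfl fun u _ => h2 u, sum_comm]
  have h3 : ∀ a ∈ s, ∑ u, (if τ u = some a then (1 : ℝ) else 0) = 1 := by
    intro a _
    rw [← sum_filter, sum_const, h1, one_smul]
  rw [sum_congr rfl h3, sum_const, nsmul_eq_mul, mul_one]

/-- the local computation -/
lemma KX_local {k m : ℕ} (τ : Fin m → Option (Fin k))
    (h1 : ∀ a : Fin k, (univ.filter (fun u => τ u = some a)).card = 1) (s : Finset (Fin k))
    (Q r : ℝ) (hr : r < 1) (c : Fin m) :
    ∑ u, (if Hit s (τ u) then 1 / (1 - r) else 1 - r / (1 - r) * ((s.card : ℝ) / (Q - s.card))) *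
      ((if Hit s (τ u) then 1 - r else 1) * (if c = u then 1 else 0) +
        (if Hit s (τ u) then r else 0) * (if Hit s (τ c) then 0 else 1 / (Q - s.card))) = 1 := by
  have hr' : 1 - r ≠ 0 := by
    intro h
    linarith
  have h2 : ∀ u, (if Hit s (τ u) then 1 / (1 - r) else
      1 - r / (1 - r) * ((s.card : ℝ) / (Q - s.card))) *
      ((if Hit s (τ u) then 1 - r else 1) * (if c = u then 1 else 0) +
        (if Hit s (τ u) then r else 0) * (if Hit s (τ c) then 0 else 1 / (Q - s.card))) =
      (if c = u then (if Hit s (τ u) then 1 else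
        1 - r / (1 - r) * ((s.card : ℝ) / (Q - s.card))) else 0) +
      (r / (1 - r) * (if Hit s (τ c) then 0 else 1 / (Q - s.card))) *
        (if Hit s (τ u) then 1 else 0) := by
    intro u
    by_cases hu : Hit s (τ u)
    · simp only [if_pos hu]
      by_cases hc : c = u
      · simp only [if_pos hc]
        field_simp
      · simp only [if_neg hc]
        field_simp
    · simp only [if_neg hu]
      by_cases hc : c = u
      · simp only [if_pos hc]
        ring
      · simp only [if_neg hc]
        ring
  rw [sum_congr rfl fun u _ => h2 u, sum_add_distrib, sum_ite_eq, if_pos (mem_univ _), ← mul_sum,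
    KX_count τ h1]
  by_cases h : Hit s (τ c)
  · rw [if_pos h, if_pos h]
    ring
  · rw [if_neg h, if_neg h]
    ring

theorem t_KX : S_KX := by
  intro N k q σ r hq hone hr
  have hcard : ∀ s : Finset (Fin k), (s.card : ℝ) ≤ k := by
    intro s
    have := card_le_univ s
    rw [Fintype.card_fin] at this
    exact_mod_cast this
  have hqk : ∀ i, 2 * (k : ℝ) ≤ q i ∧ (0 : ℝ) < q i := fun i =>
    ⟨by exact_mod_cast (hq i).1, by exact_mod_cast (hq i).2⟩
  have hpos : ∀ (i : Fin N) (s : Finset (Fin k)), 0 < (q i : ℝ) - s.card := by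
    intro i s
    have h1 := hcard s
    have h2 := hqk i
    have h3 : (0 : ℝ) ≤ s.card := Nat.cast_nonneg _
    rcases eq_or_lt_of_le h3 with h4 | h4
    · rw [← h4]
      linarith [h2.2]
    · linarith [h2.1]
  refine ⟨fun x x' => ?_, fun x => ?_, fun x' => ?_, fun x x' => ?_⟩
  · refine prod_nonneg fun i _ => ?_
    unfold kx1
    have h1 : 0 ≤ 1 - r i := by linarith [(hr i).2]
    have h2 : (0 : ℝ) ≤ 1 / ((q i : ℝ) - ((al σ x i).card : ℝ)) :=
      div_nonneg zero_le_one (hpos i _).le
    refine add_nonneg (mul_nonneg ?_ ?_) (mul_nonneg ?_ ?_)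
    · split_ifs
      · exact h1
      · exact zero_le_one
    · split_ifs
      · exact zero_le_one
      · exact le_rfl
    · split_ifs
      · exact (hr i).1
      · exact le_rfl
    · split_ifs
      · exact le_rfl
      · exact h2
  · refine prod_pos fun i _ => ?_
    have h1 : 0 < 1 - r i := by linarith [(hr i).2]
    split_ifs
    · exact div_pos one_pos h1
    · have h2 := hpos i (al σ x i)
      have h3 := hcard (al σ x i)
      have h4 := (hqk i).1
      have h5 : ((al σ x i).card : ℝ) / ((q i : ℝ) - ((al σ x i).card : ℝ)) ≤ 1 := by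
        rw [div_le_one h2]
        linarith
      have h6 : r i / (1 - r i) ≤ 1 / 2 := by
        rw [div_le_iff₀ h1]
        linarith [(hr i).2]
      have h7 : 0 ≤ r i / (1 - r i) := div_nonneg (hr i).1 h1.le
      have h8 : 0 ≤ ((al σ x i).card : ℝ) / ((q i : ℝ) - ((al σ x i).card : ℝ)) :=
        div_nonneg (Nat.cast_nonneg _) h2.le
      nlinarith
  · have h2 := KX_key N q (fun i x c =>
      (if Hit (al σ x i) (σ i c) then 1 / (1 - r i) else
        1 - r i / (1 - r i) * (((al σ x i).card : ℝ) / ((q i : ℝ) - ((al σ x i).card : ℝ)))) *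
      ((if Hit (al σ x i) (σ i c) then 1 - r i else 1) * (if x' i = c then 1 else 0) +
        (if Hit (al σ x i) (σ i c) then r i else 0) *
        (if Hit (al σ x i) (σ i (x' i)) then 0 else 1 / ((q i : ℝ) - ((al σ x i).card : ℝ)))))
      (fun _ => 1) (fun i => (hq i).2) ?_ ?_
    · rw [prod_const_one] at h2
      rw [← h2]
      refine sum_congr rfl fun x _ => ?_
      unfold phx kx kx1
      rw [← prod_mul_distrib]
    · intro i g g' c h
      have ha : al σ g i = al σ g' i := by
        unfold al
        ext a
        simp only [mem_filter, mem_univ, true_and]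
        constructor
        · intro h3 j hj
          rw [← h j hj]
          exact h3 j hj
        · intro h3 j hj
          rw [h j hj]
          exact h3 j hj
      simp only [ha]
    · intro i g
      exact KX_local (σ i) (hone i) (al σ g i) (q i) (r i) (by linarith [(hr i).2]) (x' i)
  · unfold kx kx1
    have h1 : ∀ i : Fin N, ((if Hit (al σ x i) (σ i (x i)) then (1 : ℂ) - 0 else 1) *
        (if x' i = x i then 1 else 0) + (if Hit (al σ x i) (σ i (x i)) then (0 : ℂ) else 0) *
        (if Hit (al σ x i) (σ i (x' i)) then 0 else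
          1 / ((q i : ℂ) - ((al σ x i).card : ℂ)))) = if x' i = x i then 1 else 0 := by
      intro i
      split_ifs <;> simp
    rw [prod_congr rfl fun i _ => h1 i]
    by_cases h : x' = x
    · rw [if_pos h, prod_eq_one]
      intro i _
      rw [if_pos (congrFun h i)]
    · rw [if_neg h]
      obtain ⟨i, hi⟩ := Function.ne_iff.1 h
      exact prod_eq_zero (mem_univ i) (if_neg hi)

end Pool.Agent.N422.LR
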