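import Pool.Agent.N422.LG.Stm2

/-! Project LR (helper422): no sieve (real weights, no sign condition) of level `Q` detects intervals of length
`(log Q)^(2+ε)` without `Q`-rough numbers: definitions and statements of the self-contained pieces. -/

set_option autoImplicit false

open Finset

namespace Pool.Agent.N422.LR

open Pool.Agent.N422.NW Pool.Agent.N422.SL Pool.Agent.N422.WS Pool.Agent.N422.LG

/-- states: a residue class at every place -/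
abbrev Xs {N : ℕ} (q : Fin N → ℕ) := (i : Fin N) → Fin (q i)

/-- the sites not hit at the places `< i`; `σ i u` is the site hit by the class `u` -/
def al {N k : ℕ} {q : Fin N → ℕ} (σ : (i : Fin N) → Fin (q i) → Option (Fin k)) (x : Xs q) (i : ℕ) : Finset (Fin k) :=
  univ.filter (fun a => ∀ j : Fin N, (j : ℕ) < i → σ j (x j) ≠ some a)

/-- functions of level `n` -/
def LevX {N : ℕ} {q : Fin N → ℕ} (ν : Fin N → ℕ) (n : ℕ) (f : Xs q → ℝ) : Prop :=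
  ∃ (m : ℕ) (S : Fin m → Finset (Fin N)) (g : Fin m → Xs q → ℝ),
    (∀ j, ∑ i ∈ S j, ν i ≤ n) ∧ (∀ j x x', (∀ i ∈ S j, x i = x' i) → g j x = g j x') ∧ ∀ x, f x = ∑ j, g j x

/-- every site is hit by exactly one class -/
def One {N k : ℕ} {q : Fin N → ℕ} (σ : (i : Fin N) → Fin (q i) → Option (Fin k)) : Prop :=
  ∀ (i : Fin N) (a : Fin k), (univ.filter (fun u => σ i u = some a)).card = 1

/-- the local kernel: a hit of a site alive is undone with rate `r` -/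
noncomputable def kx1 {K : Type} [Field K] {N k : ℕ} {q : Fin N → ℕ} (σ : (i : Fin N) → Fin (q i) → Option (Fin k))
    (r : Fin N → K) (x : Xs q) (i : Fin N) (c : Fin (q i)) : K :=
  (if Hit (al σ x i) (σ i (x i)) then 1 - r i else 1) * (if c = x i then 1 else 0) +
    (if Hit (al σ x i) (σ i (x i)) then r i else 0) *
      (if Hit (al σ x i) (σ i c) then 0 else 1 / ((q i : K) - ((al σ x i).card : K)))

/-- the kernel -/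
noncomputable def kx {K : Type} [Field K] {N k : ℕ} {q : Fin N → ℕ} (σ : (i : Fin N) → Fin (q i) → Option (Fin k))
    (r : Fin N → K) (x x' : Xs q) : K := ∏ i : Fin N, kx1 σ r x i (x' i)

/-- the density -/
noncomputable def phx {N k : ℕ} {q : Fin N → ℕ} (σ : (i : Fin N) → Fin (q i) → Option (Fin k)) (r : Fin N → ℝ)
    (x : Xs q) : ℝ :=
  ∏ i : Fin N, (if Hit (al σ x i) (σ i (x i)) then 1 / (1 - r i) else
    1 - r i / (1 - r i) * (((al σ x i).card : ℝ) / ((q i : ℝ) - ((al σ x i).card : ℝ))))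

/-- the adjoint of the kernel (LR/KX) -/
def S_KX : Prop := ∀ (N k : ℕ) (q : Fin N → ℕ) (σ : (i : Fin N) → Fin (q i) → Option (Fin k)) (r : Fin N → ℝ),
  (∀ i, 2 * k ≤ q i ∧ 0 < q i) → One σ → (∀ i, 0 ≤ r i ∧ r i ≤ 1 / 3) →
  (∀ x x', 0 ≤ kx σ r x x') ∧ (∀ x, 0 < phx σ r x) ∧ (∀ x', ∑ x, phx σ r x * kx σ r x x' = 1) ∧
  ∀ x x' : Xs q, kx σ (fun _ => (0 : ℂ)) x x' = if x' = x then 1 else 0

/-- polynomials (LR/PX) -/
def S_PX : Prop := ∀ (N k n : ℕ) (q : Fin N → ℕ) (σ : (i : Fin N) → Fin (q i) → Option (Fin k)) (ν : Fin N → ℕ)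
  (f : Xs q → ℝ), (∀ i, 2 * k ≤ q i ∧ 0 < q i) → One σ → LevX ν n f → ∀ (c R : Fin N → ℝ) (x : Xs q),
  ∃ P : Polynomial ℂ, ∀ z : ℂ, z ≠ 0 →
    P.eval z = z ^ n * ∑ x', kx σ (fun i => (R i : ℂ) * ((c i : ℂ) - (z ^ ν i + (z⁻¹) ^ ν i) / 2)) x x' * (f x' : ℂ)

/-- the main inequality (LR/NX) -/
def S_NX : Prop := ∀ (N k n : ℕ) (q : Fin N → ℕ) (σ : (i : Fin N) → Fin (q i) → Option (Fin k)) (ν : Fin N → ℕ)
  (f : Xs q → ℝ), (∀ i, 2 * k ≤ q i ∧ 0 < q i) → One σ → LevX ν n f → ∀ t : ℝ, 0 < t → ∀ R : Fin N → ℝ,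
  (∀ i, 0 ≤ R i ∧ R i * (Real.cosh (ν i * t) + 1) ≤ 1 / 4) → 0 < ∑ x, max (f x) 0 →
  ∑ x, max (f x) 0 * ∑ i : Fin N, R i * Real.sinh (ν i * t) * ((if Hit (al σ x i) (σ i (x i)) then 1 else 0) -
      (1 + 8 * R i * Real.cosh (ν i * t) + 2 * k / q i) * (((al σ x i).card : ℝ) / q i)) ≤
    (n * t + Real.log ((∑ x, |f x|) / ∑ x, max (f x) 0)) * ∑ x, max (f x) 0

/-- the model, one window (LR/WX) -/
def S_WX : Prop := ∀ (N k m n : ℕ) (q : Fin N → ℕ) (σ : (i : Fin N) → Fin (q i) → Option (Fin k)) (ν : Fin N → ℕ)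
  (f : Xs q → ℝ) (l κ : ℝ), 0 < m → (∀ i, 2 * k ≤ q i ∧ 0 < q i) → (∀ i, (k : ℝ) / q i ≤ κ) → 0 ≤ κ → One σ →
  (∀ i, m ≤ ν i) → LevX ν n f → 0 < l → l ≤ 1 / 16 →
  ∑ x, max (f x) 0 * ((k : ℝ) - ((al σ x N).card : ℝ)) ≤
    (1 + 11 * l + 2 * κ) * (∑ i, 1 / (q i : ℝ)) * (k * ∑ x, max (f x) 0) +
      ((n / m) * (∑ x, max (f x) 0) + ∑ x, max (-f x) 0) / l

/-- the product of the primes up to `Q` -/
noncomputable def PP (Q : ℕ) : ℕ := ∏ p ∈ (Icc 1 Q).filter Nat.Prime, p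

/-- the mean over the period `∏_{p ≤ Q} p` -/
noncomputable def mP (Q : ℕ) (F : ℕ → ℝ) : ℝ := (∑ n ∈ range (PP Q), F n) / (PP Q : ℝ)

/-- functions of level `Q` with squarefree moduli -/
noncomputable def ws (Q : ℕ) (c : ℕ → ℕ → ℝ) (n : ℕ) : ℝ := ∑ d ∈ (Icc 1 Q).filter Squarefree, c d (n % d)

/-- one window for a real function (LR/HX) -/
def S_HX : Prop := ∀ (Q U z z' b : ℕ) (l : ℝ) (c : ℕ → ℕ → ℝ), 2 ≤ z → z ≤ z' → z' ≤ Q → 1 ≤ b → 2 * b ≤ z →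
  0 < l → l ≤ 1 / 16 →
  mP Q (fun n => max (ws Q c n) 0 * ((Sv U z n).card : ℝ)) - mP Q (fun n => max (ws Q c n) 0 * ((Sv U z' n).card : ℝ)) ≤
    (1 + 11 * l + 2 * (b / z)) * (∑ p ∈ PQ z' z, 1 / (p : ℝ)) *
      mP Q (fun n => max (ws Q c n) 0 * ((Sv U z n).card : ℝ)) +
    (U / b + 1) * (((2 * (Real.log Q / Real.log z)) * mP Q (fun n => max (ws Q c n) 0) +
      mP Q (fun n => max (-ws Q c n) 0)) / l)

/-- the recursion over the scales (LR/RX) -/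
def S_RX : Prop := ∃ C : ℝ, 1 ≤ C ∧ ∀ (Q U y : ℕ) (δ K : ℝ) (c : ℕ → ℕ → ℝ), 2 ≤ y → y ≤ Q → 0 < δ → δ ≤ 1 / C →
  4 / (y : ℝ) ≤ δ → 0 < mP Q (ws Q c) →
  (∀ z : ℕ, y ≤ z → z ≤ Q → Real.exp (-(∑ p ∈ PQ Q z, 1 / (p : ℝ))) * (Real.log Q / Real.log z) ≤ K) →
  Real.exp (-((1 + C * δ) * ∑ p ∈ PQ Q y, 1 / (p : ℝ))) * mP Q (fun n => max (ws Q c n) 0 * ((Sv U y n).card : ℝ)) -
    ((∑ p ∈ PQ Q y, 1 / (p : ℝ)) / δ + 1) * ((U / y + 1) * (C * K / δ ^ 2)) * mP Q (fun n => max (ws Q c n) 0) ≤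
    mP Q (fun n => max (ws Q c n) 0 * ((Sv U Q n).card : ℝ))

/-- reduction to squarefree moduli (LR/SQF) -/
def S_SQF : Prop := ∀ (Q : ℕ) (c : ℕ → ℕ → ℝ), 1 ≤ Q → ∃ c' : ℕ → ℕ → ℝ, mP Q (ws Q c') = mQ Q (wt Q c) ∧
  ∀ T : Set ℕ, (∀ n, n ∈ T ↔ n % PP Q ∈ T) → (∀ n ∈ T, wt Q c n ≤ 0) → ∀ n ∈ T, ws Q c' n ≤ 0

/-- the theorem (LR/FX) -/
def S_FX (e : ℝ) : Prop := ∀ ε : ℝ, 0 < ε → ∃ Q0 : ℕ, ∀ Q : ℕ, Q0 ≤ Q → ∀ U : ℕ, Real.log Q ^ (e + ε) ≤ U →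
  ∀ c : ℕ → ℕ → ℝ, (∀ n, (Sv U Q n).Nonempty → wt Q c n ≤ 0) → mQ Q (wt Q c) ≤ 0

end Pool.Agent.N422.LR
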